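import Pool.Agent.P8H90.FR.Step

/-!
# Words in independent variables: the equations (helper90)
-/

set_option autoImplicit false
set_option linter.unusedSectionVars false

open CategoryTheory AlgebraicGeometry Pool.Agent.Y116.UV Pool.Agent.Z125.UN Polynomial

namespace Pool.Agent.P8H90.FR

section gen

variable {k : Type} [CommRing k] {sep : Prop} {P : Sch k → Prop} (hP : Bnd sep P)

include hP

theorem p_polyX {A : Type} [CommRing A] [Algebra k A] [Algebra.FiniteType k A]
    (h : P (aff k A)) : P (aff k A[X]) := by
  have h1 : P (aff k (MvPolynomial (Fin 1) A)) := p_poly_fin hP 1 h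
  have hft : Algebra.FiniteType k (MvPolynomial (Fin 1) A) :=
    Algebra.FiniteType.trans (S := A) inferInstance inferInstance
  exact iso_alg hP.toUni ((MvPolynomial.uniqueAlgEquiv A (Fin 1)).restrictScalars k) h1

omit hP in
/-- the localisation map -/
theorem loc_away {A : Type} [CommRing A] [Algebra k A] (f : A) :
    Loc f (IsScalarTower.toAlgHom k A (Localization.Away f)) := by
  have h : (IsScalarTower.toAlgHom k A (Localization.Away f)).toRingHom.toAlgebra =
      (inferInstance : Algebra A (Localization.Away f)) := by
    apply Algebra.algebra_ext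
    intro r
    rfl
  unfold Loc
  rw [h]
  infer_instance

omit hP in
/-- localisation and quotient -/
theorem loc_quot {A L : Type} [CommRing A] [CommRing L] [Algebra k A] [Algebra k L]
    {f : A} {ψ : A →ₐ[k] L} (hψ : Loc f ψ) (I : Ideal A) :
    Nonempty (Localization.Away (Ideal.Quotient.mk I f) ≃ₐ[k] L ⧸ Ideal.map (ψ : A →+* L) I) := by
  let _ : Algebra A L := ψ.toRingHom.toAlgebra
  have h1 : IsLocalization.Away f L := hψ
  let J : Ideal L := Ideal.map (ψ : A →+* L) I
  let θ : A ⧸ I →ₐ[k] L ⧸ J := Ideal.quotientMapₐ J ψ Ideal.le_comap_map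
  let _ : Algebra (A ⧸ I) (L ⧸ J) := θ.toRingHom.toAlgebra
  have htow : IsScalarTower k (A ⧸ I) (L ⧸ J) := IsScalarTower.of_algebraMap_eq fun r => by
    exact (θ.commutes r).symm
  have h2 : IsLocalization ((Submonoid.powers f).map (Ideal.Quotient.mk I)) (L ⧸ J) := by
    refine IsLocalization.of_surjective (Submonoid.powers f) L (Ideal.Quotient.mk I)
      Ideal.Quotient.mk_surjective (Ideal.Quotient.mk J) Ideal.Quotient.mk_surjective ?_ ?_
    · ext x
      rfl
    · rw [Ideal.mk_ker, Ideal.mk_ker]
      exact le_rfl
  rw [Submonoid.map_powers] at h2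
  exact ⟨(IsLocalization.algEquiv (Submonoid.powers (Ideal.Quotient.mk I f))
    (Localization.Away (Ideal.Quotient.mk I f)) (L ⧸ J)).restrictScalars k⟩

/-- one relation less -/
theorem nil_quot {ι : Type} [DecidableEq ι] {A : Type} [CommRing A] [Algebra k A]
    [Algebra.FiniteType k A] {r : A} {c t : ι → A} {c' t' : ι → A ⧸ Ideal.span {r}}
    (hr : r ∈ Ideal.span (Set.range fun i => c i - t i))
    (h : ∀ i, c' i - t' i = Ideal.Quotient.mk (Ideal.span {r}) (c i - t i))
    (hg : Good P [] (A ⧸ Ideal.span {r}) c' t') : Good P [] A c t := by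
  let I : Ideal A := Ideal.span {r}
  let J : Ideal A := Ideal.span (Set.range fun i => c i - t i)
  have hle : I ≤ J := by
    rw [Ideal.span_le, Set.singleton_subset_iff]
    exact hr
  have h1 : Ideal.map (Ideal.Quotient.mkₐ k I) J = Ideal.span (Set.range fun i => c' i - t' i) := by
    rw [Ideal.map_span, ← Set.range_comp]
    congr 2
    funext i
    exact (h i).symm
  have h2 : P (aff k ((A ⧸ I) ⧸ Ideal.map (Ideal.Quotient.mkₐ k I) J)) := by
    rw [h1]
    exact hg
  exact iso_alg hP.toUni (DoubleQuot.quotQuotEquivQuotOfLEₐ k hle) h2

end gen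

section field

variable {k : Type} [Field k] {sep : Prop} {P : Sch k → Prop} (hP : Bnd sep P)

include hP

/-- splitting by the values of an element -/
theorem split_values (S : Finset k) : ∀ {R : Type} [CommRing R] [Algebra k R]
    [Algebra.FiniteType k R] (x : R), ∏ a ∈ S, (x - algebraMap k R a) = 0 →
    (∀ a ∈ S, P (aff k (R ⧸ Ideal.span {x - algebraMap k R a}))) → P (aff k R) := by
  classical
  induction S using Finset.induction_on with
  | empty =>
    intro R _ _ _ x h _
    rw [Finset.prod_empty] at h
    exact p_zero hP (subsingleton_of_zero_eq_one h.symm)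
  | insert b S hb ih =>
    intro R _ _ _ x h hq
    rw [Finset.prod_insert hb] at h
    let f : R := x - algebraMap k R b
    have hft : Algebra.FiniteType k (Localization.Away f) :=
      Algebra.FiniteType.trans (S := R) inferInstance inferInstance
    refine ring_total hP f (hq b (Finset.mem_insert_self _ _)) ?_
    have hu : IsUnit (algebraMap R (Localization.Away f) f) :=
      IsLocalization.Away.algebraMap_isUnit f
    refine ih (algebraMap R _ x) ?_ fun a ha => ?_
    · have h1 := congrArg (algebraMap R (Localization.Away f)) h
      rw [map_mul, map_zero, map_prod] at h1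
      have h2 := (hu.mul_right_eq_zero).1 h1
      rw [← h2]
      refine Finset.prod_congr rfl fun a _ => ?_
      rw [map_sub, ← IsScalarTower.algebraMap_apply]
    · have hab : a ≠ b := fun h => hb (h ▸ ha)
      let I : Ideal R := Ideal.span {x - algebraMap k R a}
      have hI : Ideal.Quotient.mk I f = algebraMap k (R ⧸ I) (a - b) := by
        have h1 : algebraMap k (R ⧸ I) (a - b) =
            Ideal.Quotient.mk I (algebraMap k R a - algebraMap k R b) := by
          rw [← map_sub]
          rfl
        rw [h1, Ideal.Quotient.eq]
        have h2 : f - (algebraMap k R a - algebraMap k R b) = x - algebraMap k R a := by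
          simp only [f]
          ring
        rw [h2]
        exact Ideal.mem_span_singleton_self _
      have hun : IsUnit (Ideal.Quotient.mk I f) := by
        rw [hI]
        exact (isUnit_iff_ne_zero.2 (sub_ne_zero.2 hab)).map _
      have h3 : P (aff k (Localization.Away (Ideal.Quotient.mk I f))) := by
        refine ring_open hP _ (p_zero hP ?_) (hq a (Finset.mem_insert_of_mem ha))
        rw [Ideal.Quotient.subsingleton_iff]
        exact Ideal.eq_top_of_isUnit_mem _ (Ideal.mem_span_singleton_self _) hun
      obtain ⟨e⟩ := loc_quot (loc_away (k := k) f) I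
      have hft2 : Algebra.FiniteType k (Localization.Away (Ideal.Quotient.mk I f)) :=
        Algebra.FiniteType.trans (S := R ⧸ I) inferInstance inferInstance
      have h4 := iso_alg hP.toUni e h3
      have h5 : Ideal.map ((IsScalarTower.toAlgHom k R (Localization.Away f) :
          R →ₐ[k] Localization.Away f) : R →+* Localization.Away f) I =
          Ideal.span {algebraMap R (Localization.Away f) x - algebraMap k _ a} := by
        rw [Ideal.map_span, Set.image_singleton]
        congr 2
        change algebraMap R (Localization.Away f) (x - algebraMap k R a) = _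
        rw [map_sub, ← IsScalarTower.algebraMap_apply]
      rw [h5] at h4
      exact h4

omit hP in
/-- a constant variable -/
theorem St.const {σ A : Type} [CommRing A] [Algebra k A] {x : σ → A} {T : σ → Ty k} (h : St x T)
    (a : k) : St (fun o : Option σ => o.elim (algebraMap k A a) x)
      (fun o : Option σ => o.elim (Ty.con a) T) := by
  refine ⟨fun o => ?_, fun B _ _ y hy => ?_, fun B _ _ f g hfg => ?_⟩
  · cases o with
    | none => rfl
    | some s => exact h.ok s
  · obtain ⟨f, hf⟩ := h.lift B (fun s => y (some s)) fun s => hy (some s)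
    refine ⟨f, fun o => ?_⟩
    cases o with
    | none =>
      change f (algebraMap k A a) = _
      rw [AlgHom.commutes]
      exact (hy none).symm
    | some s => exact hf s
  · exact h.ext _ _ _ fun s => hfg (some s)

/-- the rings of all types exist, and have the property -/
theorem exists_st (σ : Type) [Finite σ] : ∀ T : σ → Ty k, ∃ (A : Type) (_ : CommRing A)
    (_ : Algebra k A) (x : σ → A), Algebra.FiniteType k A ∧ St x T ∧ P (aff k A) := by
  classical
  refine Finite.induction_empty_option (P := fun σ => ∀ T : σ → Ty k, ∃ (A : Type)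
    (_ : CommRing A) (_ : Algebra k A) (x : σ → A), Algebra.FiniteType k A ∧ St x T ∧
      P (aff k A)) ?_ ?_ ?_ σ
  · intro σ σ' e ih T
    obtain ⟨A, i1, i2, x, h1, h2, h3⟩ := ih (T ∘ e)
    refine ⟨A, i1, i2, x ∘ e.symm, h1, ⟨fun s => ?_, fun B _ _ y hy => ?_, fun B _ _ f g hfg => ?_⟩,
      h3⟩
    · have := h2.ok (e.symm s)
      simpa using this
    · obtain ⟨f, hf⟩ := h2.lift B (y ∘ e) fun s => hy (e s)
      exact ⟨f, fun s => by simpa using hf (e.symm s)⟩
    · exact h2.ext B f g fun s => by simpa using hfg (e s)
  · intro T
    refine ⟨k, inferInstance, inferInstance, fun s => s.elim, inferInstance,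
      ⟨fun s => s.elim, fun B _ _ y _ => ⟨Algebra.ofId k B, fun s => s.elim⟩,
      fun B _ _ f g _ => AlgHom.ext fun r => (f.commutes r).trans (g.commutes r).symm⟩, ?_⟩
    exact iso_alg hP.toUni (MvPolynomial.isEmptyAlgEquiv k (Fin 0)) (hP.space 0)
  · intro σ _ ih T
    obtain ⟨A, i1, i2, x, h1, h2, h3⟩ := ih fun s => T (some s)
    have hT : T = fun o => o.elim (T none) fun s => T (some s) := by
      funext o
      cases o <;> rfl
    have hft : Algebra.FiniteType k A[X] :=
      Algebra.FiniteType.trans (S := A) inferInstance inferInstance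
    rcases hn : T none with _ | _ | a
    · refine ⟨A[X], inferInstance, inferInstance, fun o => o.elim (X : A[X]) fun s => C (x s), hft,
        ?_, p_polyX hP h3⟩
      rw [hT, hn]
      exact h2.poly
    · let L := Localization.Away (X : A[X])
      have hft2 : Algebra.FiniteType k L :=
        Algebra.FiniteType.trans (S := A[X]) inferInstance inferInstance
      have h4 := h2.poly.loc none rfl (loc_away (k := k) (X : A[X]))
      have h5 : Function.update (fun o : Option σ => o.elim Ty.free fun s => T (some s)) none
          Ty.unit = T := by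
        funext o
        cases o with
        | none => rw [Function.update_self, hn]
        | some s => rw [Function.update_of_ne (by simp)]; rfl
      rw [h5] at h4
      refine ⟨L, inferInstance, inferInstance, _, hft2, h4, ?_⟩
      refine ring_open hP X ?_ (p_polyX hP h3)
      have e := (Polynomial.quotientSpanXSubCAlgEquiv (0 : A)).restrictScalars k
      rw [map_zero, sub_zero] at e
      exact iso_alg hP.toUni e.symm h3
    · refine ⟨A, i1, i2, fun o => o.elim (algebraMap k A a) x, h1, ?_, h3⟩
      rw [hT, hn]
      exact h2.const a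

/-- the rings of states have the property -/
theorem St.prop {σ A : Type} [Finite σ] [CommRing A] [Algebra k A] {x : σ → A} {T : σ → Ty k}
    (h : St x T) : P (aff k A) := by
  obtain ⟨B, i1, i2, y, h1, h2, h3⟩ := exists_st hP σ T
  obtain ⟨e, -⟩ := h2.equiv h
  exact iso_alg hP.toUni e h3

end field

end Pool.Agent.P8H90.FR
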