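import Pool.Agent.P8H48.FR.Stm4
import Pool.Agent.P8H90.FR.Eqs

/-!
# Hypersurfaces of additive polynomials: the package HASM (helper90)
-/

set_option autoImplicit false
set_option linter.unusedSectionVars false

open CategoryTheory AlgebraicGeometry Pool.Agent.Y116.UV Pool.Agent.Z125.UN Polynomial
open Pool.Agent.P8H48.FR

namespace Pool.Agent.P8H90.FR

theorem addPol_map {p : ℕ} {R S : Type} [CommRing R] [CommRing S] (f : R →+* S) {m : ℕ}
    (a : Fin (m + 1) → R) : (addPol p a).map f = addPol p fun i => f (a i) := by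
  unfold addPol
  rw [Polynomial.map_sum]
  refine Finset.sum_congr rfl fun i _ => ?_
  rw [Polynomial.map_mul, Polynomial.map_pow, Polynomial.map_C, Polynomial.map_X]

theorem addPol_monic {p : ℕ} (hp : 2 ≤ p) {R : Type} [CommRing R] {m : ℕ}
    (a : Fin (m + 1) → R) (ha : a (Fin.last m) = 1) : (addPol p a).Monic := by
  unfold addPol
  rw [Fin.sum_univ_castSucc, ha, map_one, one_mul, add_comm, Fin.val_last]
  refine Polynomial.monic_X_pow_add ?_
  refine lt_of_le_of_lt (Polynomial.degree_sum_le _ _) ?_
  rw [Finset.sup_lt_iff (by exact WithBot.bot_lt_coe _)]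
  intro i _
  refine lt_of_le_of_lt (Polynomial.degree_C_mul_X_pow_le _ _) ?_
  have h1 : p ^ ((Fin.castSucc i : Fin (m + 1)) : ℕ) < p ^ m :=
    Nat.pow_lt_pow_right (by omega) i.isLt
  exact_mod_cast h1

theorem addPol_deriv {p : ℕ} {R : Type} [CommRing R] [CharP R p] {m : ℕ}
    (a : Fin (m + 1) → R) : derivative (addPol p a) = C (a 0) := by
  unfold addPol
  rw [Polynomial.derivative_sum, Fin.sum_univ_succ]
  have h1 : ∀ i : Fin m, derivative (C (a i.succ) * X ^ p ^ ((i.succ : Fin (m + 1)) : ℕ)) =
      (0 : R[X]) := by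
    intro i
    rw [Polynomial.derivative_C_mul_X_pow, Fin.val_succ]
    have h2 : ((p ^ ((i : ℕ) + 1) : ℕ) : R) = 0 := by
      rw [pow_succ, Nat.cast_mul, CharP.cast_eq_zero R p, mul_zero]
    rw [h2, mul_zero, map_zero, zero_mul]
  rw [Finset.sum_eq_zero fun i _ => h1 i, add_zero]
  simp

/-- an algebra given by one monic equation whose derivative is a unit is etale -/
theorem etale_unit {A : Type} [CommRing A] (Φ : A[X]) (hm : Φ.Monic) {c : A} (hc : IsUnit c)
    (hd : derivative Φ = C c) : Algebra.Etale A (A[X] ⧸ Ideal.span {Φ}) := by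
  obtain ⟨u, rfl⟩ := hc
  let P : StandardEtalePair A := ⟨Φ, hm, 1, ⟨C ((u⁻¹ : Aˣ) : A), 0, 1, by
    rw [hd, ← C_mul, Units.mul_inv]; simp⟩⟩
  have hmap : P.HasMap (AdjoinRoot.root Φ) := by
    refine ⟨?_, ?_⟩
    · change aeval (AdjoinRoot.root Φ) Φ = 0
      rw [AdjoinRoot.aeval_eq, AdjoinRoot.mk_self]
    · change IsUnit (aeval (AdjoinRoot.root Φ) (1 : A[X]))
      rw [map_one]
      exact isUnit_one
  let F : P.Ring →ₐ[A] AdjoinRoot Φ := P.lift (AdjoinRoot.root Φ) hmap
  let G : AdjoinRoot Φ →ₐ[A] P.Ring :=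
    AdjoinRoot.liftAlgHom Φ (Algebra.ofId A P.Ring) P.X P.hasMap_X.1
  have h1 : F.comp G = AlgHom.id A (AdjoinRoot Φ) := by
    apply AdjoinRoot.algHom_ext
    change F (G (AdjoinRoot.root Φ)) = AdjoinRoot.root Φ
    have h2 : G (AdjoinRoot.root Φ) = P.X := AdjoinRoot.liftAlgHom_root ..
    rw [h2]
    exact P.lift_X _ hmap
  have h3 : G.comp F = AlgHom.id A P.Ring := by
    apply P.hom_ext
    change G (F P.X) = P.X
    have h2 : F P.X = AdjoinRoot.root Φ := P.lift_X _ hmap
    rw [h2]
    exact AdjoinRoot.liftAlgHom_root ..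
  exact Algebra.Etale.of_equiv (AlgEquiv.ofAlgHom F G h1 h3)

/-- finite algebras have no larger dimension -/
theorem dim_finite {C D : Type} [CommRing C] [CommRing D] [Algebra C D] [Module.Finite C D] :
    ringKrullDim D ≤ ringKrullDim C := by
  have : Algebra.IsIntegral C D := inferInstance
  refine Order.krullDim_le_of_strictMono
    (fun q : PrimeSpectrum D => PrimeSpectrum.comap (algebraMap C D) q) ?_
  intro a b hab
  exact Ideal.IsIntegral.comap_lt_comap (show a.asIdeal < b.asIdeal from hab)

/-- the hypersurface of an additive polynomial -/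
abbrev AH (p : ℕ) {R : Type} [CommRing R] {m : ℕ} (a : Fin (m + 1) → R) : Type :=
  R[X] ⧸ Ideal.span {addPol p a}

/-- the dimension of the hypersurface -/
theorem dim_AH {p : ℕ} (hp : 2 ≤ p) {R : Type} [CommRing R] {m : ℕ} (a : Fin (m + 1) → R)
    (ha : a (Fin.last m) = 1) : ringKrullDim (AH p a) ≤ ringKrullDim R :=
  have := (addPol_monic hp a ha).finite_quotient
  dim_finite

theorem sub_AH {p : ℕ} {R : Type} [CommRing R] {m : ℕ} (a : Fin (m + 1) → R)
    (h : Subsingleton R) : Subsingleton (AH p a) :=
  have _ : Subsingleton R[X] := inferInstance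
  Function.Surjective.subsingleton Ideal.Quotient.mk_surjective

/-- polynomials over a quotient -/
noncomputable def polyQ (k : Type) {A : Type} [CommRing k] [CommRing A] [Algebra k A]
    (I : Ideal A) : (A ⧸ I)[X] ≃ₐ[k] A[X] ⧸ Ideal.map (C : A →+* A[X]) I :=
  AlgEquiv.ofRingEquiv (f := Ideal.polynomialQuotientEquivQuotientPolynomial I) (by
    intro r
    have h3 : (algebraMap k (A ⧸ I)[X] r) =
        Polynomial.map (Ideal.Quotient.mk I) (C (algebraMap k A r)) := by
      rw [Polynomial.map_C]
      rfl
    rw [h3, Ideal.polynomialQuotientEquivQuotientPolynomial_map_mk]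
    rfl)

section

variable {k : Type} [CommRing k] {sep : Prop} {P : Sch k → Prop} (hP : Bnd sep P)

include hP

/-- one parameter less, for isomorphic rings of coefficients -/
theorem down_core {R R' : Type} [CommRing R] [CommRing R'] [Algebra k R] [Algebra k R']
    [Algebra.FiniteType k R] [Algebra.FiniteType k R'] (p : ℕ) (E : R' ≃ₐ[k] R[X]) {m : ℕ}
    (a : Fin (m + 1) → R)
    (h : P (aff k (AH p fun i => E.symm (C (a i))))) :
    P (aff k (MvPolynomial (Fin 1) (AH p a))) := by
  let a' : Fin (m + 1) → R' := fun i => E.symm (C (a i))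
  let S : R'[X] ≃ₐ[k] R[X][X] :=
    (Polynomial.mapAlgEquiv E).trans ((Polynomial.Bivariate.swap (R := R)).restrictScalars k)
  have hS : S (addPol p a') = C (addPol p a) := by
    change Polynomial.Bivariate.swap ((addPol p a').map (E : R' →+* R[X])) = _
    rw [addPol_map]
    have h2 : (addPol p fun i => (E : R' →+* R[X]) (a' i)) = (addPol p a).map C := by
      rw [addPol_map]
      congr 1
      funext i
      exact E.apply_symm_apply _
    rw [h2, Polynomial.Bivariate.swap_map_C]
  have hft0 : Algebra.FiniteType k R[X] :=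
    Algebra.FiniteType.trans (S := R) inferInstance inferInstance
  have hft0' : Algebra.FiniteType k R'[X] :=
    Algebra.FiniteType.trans (S := R') inferInstance inferInstance
  have h2 : P (aff k (R[X][X] ⧸ Ideal.map (C : R[X] →+* R[X][X])
      (Ideal.span {addPol p a}))) := by
    refine iso_alg hP.toUni (Ideal.quotientEquivAlg _ _ S ?_) h
    rw [Ideal.map_span, Ideal.map_span, Set.image_singleton, Set.image_singleton]
    exact congrArg (fun z => Ideal.span {z}) hS.symm
  have hft2 : Algebra.FiniteType k R[X][X] :=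
    Algebra.FiniteType.trans (S := R[X]) inferInstance inferInstance
  have h3 : P (aff k (R[X] ⧸ Ideal.span {addPol p a})[X]) :=
    iso_alg hP.toUni (polyQ k (Ideal.span {addPol p a})).symm h2
  have hft3 : Algebra.FiniteType k (R[X] ⧸ Ideal.span {addPol p a})[X] :=
    Algebra.FiniteType.trans (S := R[X] ⧸ Ideal.span {addPol p a}) inferInstance inferInstance
  exact iso_alg hP.toUni ((MvPolynomial.uniqueAlgEquiv (R[X] ⧸ Ideal.span {addPol p a})
    (Fin 1)).symm.restrictScalars k) h3

/-- the localisation of the hypersurface -/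
theorem open_core {R : Type} [CommRing R] [Algebra k R] [Algebra.FiniteType k R] (p : ℕ) {m : ℕ}
    (a : Fin (m + 1) → R) (h : R)
    (hQ : P (aff k (AH p a)))
    (hC : P (aff k (AH p fun i => Ideal.Quotient.mk (Ideal.span {h}) (a i)))) :
    P (aff k (AH p fun i => algebraMap R (Localization.Away h) (a i))) := by
  let I : Ideal R[X] := Ideal.span {addPol p a}
  have hft0 : Algebra.FiniteType k R[X] :=
    Algebra.FiniteType.trans (S := R) inferInstance inferInstance
  have hclosed : P (aff k ((R[X] ⧸ I) ⧸ Ideal.span {Ideal.Quotient.mk I (C h)})) := by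
    let K : Ideal R := Ideal.span {h}
    let χ : R[X] →ₐ[k] (R ⧸ K)[X] := Polynomial.mapAlgHom (Ideal.Quotient.mkₐ k K)
    have hft1 : Algebra.FiniteType k (R ⧸ K)[X] :=
      Algebra.FiniteType.trans (S := R ⧸ K) inferInstance inferInstance
    refine nil_closed hP (φ := χ) ?_ ?_ I ?_
    · have : Function.Surjective (Polynomial.map (Ideal.Quotient.mk K)) :=
        Polynomial.map_surjective _ Ideal.Quotient.mk_surjective
      exact this
    · have h3 := Polynomial.ker_mapRingHom (Ideal.Quotient.mk K)
      rw [Ideal.mk_ker, Ideal.map_span, Set.image_singleton] at h3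
      exact h3
    · have h4 : Ideal.map (χ : R[X] →+* (R ⧸ K)[X]) I =
          Ideal.span {addPol p fun i => Ideal.Quotient.mk K (a i)} := by
        rw [Ideal.map_span, Set.image_singleton]
        congr 2
        exact addPol_map (Ideal.Quotient.mk K) a
      rw [h4]
      exact hC
  have hopen : P (aff k (Localization.Away (Ideal.Quotient.mk I (C h)))) :=
    ring_open hP _ hclosed hQ
  let L := Localization.Away h
  let ψ : R[X] →ₐ[k] L[X] := Polynomial.mapAlgHom (IsScalarTower.toAlgHom k R L)
  have hψ : Loc (C h : R[X]) ψ := (loc_away h).poly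
  obtain ⟨e⟩ := loc_quot hψ I
  have hft2 : Algebra.FiniteType k (Localization.Away (Ideal.Quotient.mk I (C h))) :=
    Algebra.FiniteType.trans (S := R[X] ⧸ I) inferInstance inferInstance
  have h1 := iso_alg hP.toUni e hopen
  have h2 : Ideal.map (ψ : R[X] →+* L[X]) I =
      Ideal.span {addPol p fun i => algebraMap R L (a i)} := by
    rw [Ideal.map_span, Set.image_singleton]
    congr 2
    exact addPol_map (algebraMap R L) a
  rw [h2] at h1
  exact h1

end

/-- an etale algebra generated by one element -/
theorem etale_core {k : Type} [Field k] {sep : Prop} {P : Sch k → Prop} (hP : Bnd sep P)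
    (hclo : S_CLO) (hS : Summ P) {L W : Type} [CommRing L] [CommRing W]
    [Algebra k L] [Algebra k W] [Algebra.FiniteType k L] [IsNoetherianRing L] (φ : L →ₐ[k] W)
    (hφ : FFE φ.toRingHom) (f : L[X]) (hm : f.Monic) {c : L} (hc : IsUnit c)
    (hd : derivative f = C c) (θ : W) (h0 : Polynomial.eval₂ φ.toRingHom θ f = 0)
    (hsurj : Function.Surjective (Polynomial.eval₂RingHom φ.toRingHom θ))
    (hQ : P (aff k (L[X] ⧸ Ideal.span {f}))) : P (aff k W) := by
  have hft0 : Algebra.FiniteType k L[X] :=
    Algebra.FiniteType.trans (S := L) inferInstance inferInstance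
  let _ : Algebra L W := φ.toRingHom.toAlgebra
  obtain ⟨-, -, hW⟩ := hφ
  have hW' : Algebra.Etale L W := hW
  have hQe : Algebra.Etale L (L[X] ⧸ Ideal.span {f}) := etale_unit f hm hc hd
  have hN : IsNoetherianRing (L[X] ⧸ Ideal.span {f}) := inferInstance
  let F : L[X] →+* W := Polynomial.eval₂RingHom φ.toRingHom θ
  have hFf : F f = 0 := h0
  let g : (L[X] ⧸ Ideal.span {f}) →ₐ[L] W :=
    { toRingHom := Ideal.Quotient.lift (Ideal.span {f}) F (fun z hz => by
        obtain ⟨y, rfl⟩ := Ideal.mem_span_singleton.1 hz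
        rw [map_mul, hFf, zero_mul])
      commutes' := fun r => Polynomial.eval₂_C _ _ }
  have hg : Function.Surjective g := by
    intro z
    obtain ⟨y, hy⟩ := hsurj z
    exact ⟨Ideal.Quotient.mk _ y, hy⟩
  obtain ⟨ε, hε, hker⟩ := hclo L (L[X] ⧸ Ideal.span {f}) W g hg
  have h7 := hS (L[X] ⧸ Ideal.span {f}) ε hε hQ
  let g' : (L[X] ⧸ Ideal.span {f}) →ₐ[k] W :=
    { toRingHom := g.toRingHom
      commutes' := fun r => by
        have h8 : (algebraMap k (L[X] ⧸ Ideal.span {f})) r =
          algebraMap L (L[X] ⧸ Ideal.span {f}) (algebraMap k L r) := rfl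
        rw [h8]
        exact (g.commutes _).trans (φ.commutes r) }
  have hker' : RingHom.ker g' = Ideal.span {ε} := hker
  refine iso_alg hP.toUni ?_ h7
  rw [← hker']
  exact Ideal.quotientKerAlgEquivOfSurjective (f := g') hg

theorem hasm : S_HASM := by
  intro hcomp haway hgen hhyp hclo hpold _ p hp sep P hP hS n
  have hp2 : 2 ≤ p := hp.out.two_le
  induction n using Nat.strong_induction_on with
  | _ n ih =>
  intro hn A _ _ _ hA
  have hall : ∀ d, d ≤ n → ∀ (m : ℕ) (a : Fin (m + 1) → MvPolynomial (Fin d) (ZMod p)),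
      a (Fin.last m) = 1 → P (aff (ZMod p) (AddHyp p a)) := by
    intro d hd
    induction hd using Nat.decreasingInduction with
    | self => exact hn
    | of_succ d hd h =>
      intro m a ha
      refine hpold (ZMod p) sep P hP _ 1 (down_core hP p (MvPolynomial.finSuccEquiv (ZMod p) d) a
        (h m _ ?_))
      rw [ha, map_one, map_one]
  refine noeth hP (fun B _ _ h => p_empty hP B h) fun q hq => ?_
  have hdim : ringKrullDim (A ⧸ q) ≤ n := (ringKrullDim_quotient_le q).trans hA
  obtain ⟨d, m, a, hd, ha, h, hh, hah, w, hw, φ, hφ, θ, hθ, hsurj⟩ :=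
    hhyp hcomp haway hgen p (ZMod p) (A ⧸ q) n hdim
  refine ⟨w, hw, ?_⟩
  have hC : P (aff (ZMod p) (AH p fun i => Ideal.Quotient.mk (Ideal.span {h}) (a i))) := by
    cases d with
    | zero =>
      refine p_empty hP _ (sub_AH _ ?_)
      have h5 : Subsingleton (MvPolynomial (Fin 0) (ZMod p) ⧸ Ideal.span {h}) := by
        rw [Ideal.Quotient.subsingleton_iff]
        refine Ideal.eq_top_of_isUnit_mem _ (Ideal.mem_span_singleton_self _) ?_
        let e := MvPolynomial.isEmptyAlgEquiv (ZMod p) (Fin 0)
        have h6 : IsUnit (e h) := isUnit_iff_ne_zero.2 fun h0 => hh (by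
          have := congrArg e.symm h0
          rwa [e.symm_apply_apply, map_zero] at this)
        have h7 := h6.map e.symm
        rwa [e.symm_apply_apply] at h7
      exact h5
    | succ d' =>
      have h5 : ringKrullDim (MvPolynomial (Fin (d' + 1)) (ZMod p) ⧸ Ideal.span {h}) ≤ d' :=
        dim_quot _ fun h0 => hh (by
          have h1 : h ∈ Ideal.span {h} := Ideal.mem_span_singleton_self h
          rw [h0] at h1
          exact h1)
      have h6 := (dim_AH hp2 (fun i => Ideal.Quotient.mk (Ideal.span {h}) (a i))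
        (by rw [ha, map_one])).trans h5
      exact ih d' (by omega) (hall d' (by omega)) _ h6
  have h1 := open_core hP p a h (hall d hd m a ha) hC
  have hun : IsUnit (algebraMap (MvPolynomial (Fin d) (ZMod p)) (Localization.Away h) (a 0)) := by
    obtain ⟨b, hb⟩ := hah
    have h3 : IsUnit (algebraMap (MvPolynomial (Fin d) (ZMod p)) (Localization.Away h) h) :=
      IsLocalization.Away.algebraMap_isUnit h
    have h4 : algebraMap (MvPolynomial (Fin d) (ZMod p)) (Localization.Away h) h =
        algebraMap (MvPolynomial (Fin d) (ZMod p)) (Localization.Away h) (a 0) *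
        algebraMap (MvPolynomial (Fin d) (ZMod p)) (Localization.Away h) b := by
      rw [← map_mul]
      exact congrArg _ hb
    rw [h4] at h3
    exact isUnit_of_mul_isUnit_left h3
  have hnoe : IsNoetherianRing (Localization.Away h) :=
    IsLocalization.isNoetherianRing (Submonoid.powers h) _ inferInstance
  have hft3 : Algebra.FiniteType (ZMod p) (Localization.Away h) :=
    Algebra.FiniteType.trans (S := MvPolynomial (Fin d) (ZMod p)) inferInstance inferInstance
  have hinj : Function.Injective
      (algebraMap (MvPolynomial (Fin d) (ZMod p)) (Localization.Away h)) :=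
    IsLocalization.injective (Localization.Away h) (powers_le_nonZeroDivisors_of_noZeroDivisors hh)
  have hchar : CharP (Localization.Away h) p := charP_of_injective_algebraMap hinj p
  refine etale_core hP hclo hS φ hφ _ (addPol_monic hp2 _ (by rw [ha, map_one])) hun
    (addPol_deriv _) θ ?_ hsurj h1
  have h8 := hθ
  rw [← addPol_map, Polynomial.eval₂_map]
  exact h8

end Pool.Agent.P8H90.FR
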