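import Pool.Agent.P8H90.FR.Words

/-!
# Words in independent variables: the package UNC (helper90)
-/

set_option autoImplicit false
set_option linter.unusedSectionVars false

open CategoryTheory AlgebraicGeometry Pool.Agent.Y116.UV Pool.Agent.Z125.UN Polynomial
open Pool.Agent.P8H48.FR

namespace Pool.Agent.P8H90.FR

section

variable {p : ℕ} [hp : Fact p.Prime] {sep : Prop} {P : Sch (ZMod p) → Prop} (hP : Bnd sep P)
  {ι : Type} [DecidableEq ι] [Fintype ι]

include hP

theorem words (w : List (ι × ι)) : ∀ {σ : Type} [Finite σ] (c a : ι → σ)
    (_ : ∀ i j, c i = c j → i = j) (_ : ∀ i j, c i = a j → i = j) {A : Type} [CommRing A]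
    [Algebra (ZMod p) A] [Algebra.FiniteType (ZMod p) A] {x : σ → A} {T : σ → Ty (ZMod p)}
    (_ : St x T) (_ : Cond c a Finset.univ T),
    Good P w A (fun i => x (c i)) (fun i => x (a i) ^ p) := by
  classical
  induction w with
  | nil =>
    intro σ _ c a hc hca A _ _ _ x T h hT
    refine nil_congr rfl ?_ (hyp_all hP hc hca Finset.univ A x T h hT)
    funext i
    rw [tgt_mem (Finset.mem_univ i)]
  | cons l w ih =>
    intro σ _ c a hc hca A _ _ _ x T h hT
    have key : ∀ (B : Type) [CommRing B] [Algebra (ZMod p) B] [Algebra.FiniteType (ZMod p) B]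
        (y : σ → B) (T : σ → Ty (ZMod p)), St y T → Cond c a Finset.univ T →
        T (c l.2) ≠ Ty.free → Good P (l :: w) B (fun i => y (c i)) (fun i => y (a i) ^ p) := by
      intro B _ _ _ y T h hT hf
      rcases hs : T (c l.2) with _ | _ | b
      · exact absurd hs hf
      · have hft : Algebra.FiniteType (ZMod p) B[X] :=
          Algebra.FiniteType.trans (S := B) inferInstance inferInstance
        refine step_unit hP (x_unit h hs) ?_
        have h1 := ih (σ := Option σ) (Function.update (fun i => some (c i)) l.1 none)
          (fun i => some (a i)) (fun i j hij => ?_) (fun i j hij => ?_) h.poly (fun i _ => ?_)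
        · have h2 : (fun i => (fun o : Option σ => o.elim (X : B[X]) fun s => C (y s))
              (Function.update (fun i => some (c i)) l.1 none i)) =
              Function.update (fun i => C (y (c i))) l.1 X := by
            funext i
            by_cases hi : i = l.1
            · subst hi
              rw [Function.update_self, Function.update_self]
              rfl
            · rw [Function.update_of_ne hi, Function.update_of_ne hi]
              rfl
          have h3 : (fun i => (fun o : Option σ => o.elim (X : B[X]) fun s => C (y s))
              (some (a i)) ^ p) = fun i => C (y (a i) ^ p) := by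
            funext i
            rw [map_pow]
            rfl
          rw [h2, h3] at h1
          exact h1
        · by_cases hi : i = l.1
          · by_cases hj : j = l.1
            · rw [hi, hj]
            · rw [hi, Function.update_self, Function.update_of_ne hj] at hij
              cases hij
          · by_cases hj : j = l.1
            · rw [hj, Function.update_self, Function.update_of_ne hi] at hij
              cases hij
            · rw [Function.update_of_ne hi, Function.update_of_ne hj] at hij
              exact hc _ _ (Option.some.inj hij)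
        · by_cases hi : i = l.1
          · rw [hi, Function.update_self] at hij
            cases hij
          · rw [Function.update_of_ne hi] at hij
            exact hca _ _ (Option.some.inj hij)
        · refine ⟨?_, (hT i (Finset.mem_univ _)).2⟩
          by_cases hi : i = l.1
          · rw [hi, Function.update_self]
            rintro b ⟨⟩
          · rw [Function.update_of_ne hi]
            exact (hT i (Finset.mem_univ _)).1
      · exact step_zero hP (x_zero h (hT l.2 (Finset.mem_univ _)).1 hs) (ih c a hc hca h hT)
    by_cases hf : T (c l.2) = Ty.free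
    · refine st_total hP h (c l.2) hf (fun B _ y i => y (c i)) (fun B _ y i => y (a i) ^ p)
        (fun φ y => rfl) (fun φ y => funext fun i => map_pow φ _ _) fun B _ _ _ y T' hT' hy => ?_
      have hnc : Nc T' := by
        rcases hT' with rfl | rfl
        · rintro b ⟨⟩
          rfl
        · rintro b ⟨⟩
      refine key B y _ hy (fun i hi => ⟨?_, ?_⟩) ?_
      · by_cases h3 : c i = c l.2
        · rw [h3, Function.update_self]
          exact hnc
        · rw [Function.update_of_ne h3]
          exact (hT i hi).1
      · by_cases h3 : a i = c l.2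
        · rw [h3, Function.update_self]
          exact hnc
        · rw [Function.update_of_ne h3]
          exact (hT i hi).2
      · rw [Function.update_self]
        rcases hT' with rfl | rfl <;> simp
    · exact key A x T h hT hf

end

/-- the product of the transvections with the letters `w` in the variables `X k` -/
noncomputable def trans (A : Type) [CommRing A] {n r : ℕ} (w : Fin r → Fin n × Fin n) :
    Matrix (Fin n) (Fin n) (MvPolynomial (Fin r) A) :=
  (List.ofFn fun k => Matrix.transvection (w k).1 (w k).2 (MvPolynomial.X k)).prod

theorem prodW_genW {k : Type} [CommRing k] {n r : ℕ} (w : Fin r → Fin n × Fin n)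
    (hw : ∀ k, (w k).1 ≠ (w k).2) : prodW k (genW w hw) = trans k w := by
  unfold prodW genW trans
  rw [List.map_ofFn]
  rfl

/-- the equations -/
noncomputable def eqn {A : Type} [CommRing A] {n r : ℕ} (w : Fin r → Fin n × Fin n)
    (c t : Fin n → A) (i : Fin n) : MvPolynomial (Fin r) A :=
  ((trans A w).mulVec fun j => MvPolynomial.C (c j)) i - MvPolynomial.C (t i)

/-- one variable is moved to the ring of coefficients -/
noncomputable def mv (k : Type) [CommRing k] (A : Type) [CommRing A] [Algebra k A] (r : ℕ) :
    MvPolynomial (Fin (r + 1)) A ≃ₐ[k] MvPolynomial (Fin r) A[X] :=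
  ((MvPolynomial.renameEquiv A (finSuccEquivLast (n := r))).trans
    (MvPolynomial.optionEquivRight A (Fin r))).restrictScalars k

theorem mv_castSucc {k : Type} [CommRing k] {A : Type} [CommRing A] [Algebra k A] {r : ℕ}
    (i : Fin r) : mv k A r (MvPolynomial.X i.castSucc) = MvPolynomial.X i := by
  change MvPolynomial.optionEquivRight A (Fin r) (MvPolynomial.renameEquiv A finSuccEquivLast
    (MvPolynomial.X i.castSucc)) = _
  rw [MvPolynomial.renameEquiv_apply, MvPolynomial.rename_X, finSuccEquivLast_castSucc,
    MvPolynomial.optionEquivRight_X_some]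

theorem mv_last {k : Type} [CommRing k] {A : Type} [CommRing A] [Algebra k A] {r : ℕ} :
    mv k A r (MvPolynomial.X (Fin.last r)) = MvPolynomial.C X := by
  change MvPolynomial.optionEquivRight A (Fin r) (MvPolynomial.renameEquiv A finSuccEquivLast
    (MvPolynomial.X (Fin.last r))) = _
  rw [MvPolynomial.renameEquiv_apply, MvPolynomial.rename_X, finSuccEquivLast_last,
    MvPolynomial.optionEquivRight_X_none]

theorem mv_C {k : Type} [CommRing k] {A : Type} [CommRing A] [Algebra k A] {r : ℕ} (a : A) :
    mv k A r (MvPolynomial.C a) = MvPolynomial.C (C a) := by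
  change MvPolynomial.optionEquivRight A (Fin r) (MvPolynomial.renameEquiv A finSuccEquivLast
    (MvPolynomial.C a)) = _
  rw [MvPolynomial.renameEquiv_apply, MvPolynomial.rename_C, MvPolynomial.optionEquivRight_C]

theorem map_transvection {R S : Type} [CommRing R] [CommRing S] {n : ℕ} (f : R →+* S)
    (i j : Fin n) (a : R) :
    (Matrix.transvection i j a).map f = Matrix.transvection i j (f a) := by
  ext s t
  simp only [Matrix.transvection, Matrix.map_apply, Matrix.add_apply, map_add]
  congr 1
  · by_cases h : s = t
    · subst h
      simp
    · simp [Matrix.one_apply_ne h]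
  · rw [Matrix.single_apply, Matrix.single_apply]
    split_ifs <;> simp

theorem transvection_mulVec {R : Type} [CommRing R] {n : ℕ} (i j : Fin n) (a : R)
    (v : Fin n → R) : (Matrix.transvection i j a).mulVec v =
      Function.update v i (v i + a * v j) := by
  rw [Matrix.transvection, Matrix.add_mulVec, Matrix.one_mulVec]
  funext s
  by_cases hs : s = i
  · subst hs
    simp [Function.update_self, Matrix.single_mulVec]
  · simp [Matrix.single_mulVec, hs]

theorem trans_succ {k : Type} [CommRing k] {A : Type} [CommRing A] [Algebra k A] {n r : ℕ}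
    (w : Fin (r + 1) → Fin n × Fin n) :
    (trans A w).map (mv k A r) = trans A[X] (fun i => w i.castSucc) *
      Matrix.transvection (w (Fin.last r)).1 (w (Fin.last r)).2 (MvPolynomial.C X) := by
  have h1 : (trans A w).map (mv k A r) =
      ((mv k A r : MvPolynomial (Fin (r + 1)) A →+* MvPolynomial (Fin r) A[X]).mapMatrix
        (trans A w)) := rfl
  rw [h1, trans, List.ofFn_succ', List.concat_eq_append, List.prod_append, List.prod_singleton,
    map_mul, map_list_prod, List.map_ofFn]
  congr 1
  · unfold trans
    congr 2
    funext i
    change (Matrix.transvection _ _ (MvPolynomial.X i.castSucc)).map _ = _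
    rw [map_transvection]
    congr 1
    exact mv_castSucc i
  · change (Matrix.transvection _ _ (MvPolynomial.X (Fin.last r))).map _ = _
    rw [map_transvection]
    congr 1
    exact mv_last

theorem eqn_succ {k : Type} [CommRing k] {A : Type} [CommRing A] [Algebra k A] {n r : ℕ}
    (w : Fin (r + 1) → Fin n × Fin n) (c t : Fin n → A) (i : Fin n) :
    mv k A r (eqn w c t i) = eqn (fun i => w i.castSucc)
      (Function.update (fun i => C (c i)) (w (Fin.last r)).1
        (C (c (w (Fin.last r)).1) + X * C (c (w (Fin.last r)).2))) (fun i => C (t i)) i := by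
  unfold eqn
  rw [map_sub, mv_C]
  congr 1
  have h1 := RingHom.map_mulVec
    (mv k A r : MvPolynomial (Fin (r + 1)) A →+* MvPolynomial (Fin r) A[X]) (trans A w)
    (fun j => MvPolynomial.C (c j)) i
  have h2 : (trans A w).map (mv k A r : MvPolynomial (Fin (r + 1)) A →+*
      MvPolynomial (Fin r) A[X]) = _ := trans_succ w
  have h3 : ((mv k A r : MvPolynomial (Fin (r + 1)) A →+* MvPolynomial (Fin r) A[X]) ∘
      fun j => MvPolynomial.C (c j)) = fun j => MvPolynomial.C (C (c j)) :=
    funext fun j => mv_C (k := k) (r := r) (c j)
  have h4 : Function.update (fun j => (MvPolynomial.C (C (c j)) : MvPolynomial (Fin r) A[X]))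
      (w (Fin.last r)).1 (MvPolynomial.C (C (c (w (Fin.last r)).1)) +
        MvPolynomial.C X * MvPolynomial.C (C (c (w (Fin.last r)).2))) =
      fun j => MvPolynomial.C (Function.update (fun i => C (c i)) (w (Fin.last r)).1
        (C (c (w (Fin.last r)).1) + X * C (c (w (Fin.last r)).2)) j) := by
    funext s
    by_cases hs : s = (w (Fin.last r)).1
    · subst hs
      rw [Function.update_self, Function.update_self, map_add, map_mul]
    · rw [Function.update_of_ne hs, Function.update_of_ne hs]
  rw [h2, h3, ← Matrix.mulVec_mulVec, transvection_mulVec, h4] at h1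
  exact h1

section

variable {k : Type} [CommRing k] {sep : Prop} {P : Sch k → Prop} (hP : Bnd sep P)

include hP

theorem good_eqn {n : ℕ} : ∀ (r : ℕ) (w : Fin r → Fin n × Fin n) {A : Type} [CommRing A]
    [Algebra k A] [Algebra.FiniteType k A] (c t : Fin n → A),
    Good P (List.ofFn w).reverse A c t →
    P (aff k (MvPolynomial (Fin r) A ⧸ Ideal.span (Set.range (eqn w c t)))) := by
  intro r
  induction r with
  | zero =>
    intro w A _ _ _ c t h
    rw [List.ofFn_zero, List.reverse_nil] at h
    refine iso_alg hP.toUni (Ideal.quotientEquivAlg _ _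
      ((MvPolynomial.isEmptyAlgEquiv A (Fin 0)).symm.restrictScalars k) ?_) h
    rw [Ideal.map_span, ← Set.range_comp]
    congr 2
    funext i
    have h1 : trans A w = 1 := by
      rw [trans, List.ofFn_zero, List.prod_nil]
    simp only [eqn, h1, Matrix.one_mulVec, Function.comp_apply]
    rw [← map_sub]
    simp
  | succ r ih =>
    intro w A _ _ _ c t h
    rw [List.ofFn_succ', List.concat_eq_append, List.reverse_append, List.reverse_singleton,
      List.singleton_append] at h
    have hft : Algebra.FiniteType k A[X] :=
      Algebra.FiniteType.trans (S := A) inferInstance inferInstance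
    have h1 := ih (fun i => w i.castSucc) _ _ h
    have hft : Algebra.FiniteType k (MvPolynomial (Fin r) A[X]) :=
      Algebra.FiniteType.trans (S := A[X]) inferInstance inferInstance
    refine iso_alg hP.toUni (Ideal.quotientEquivAlg _ _ (mv k A r) ?_).symm h1
    rw [Ideal.map_span, ← Set.range_comp]
    congr 2
    funext i
    exact (eqn_succ w c t i).symm

end

/-- the package UNC -/
theorem unc : S_UNC := by
  intro p _ sep P hP n r w hw
  rw [prodW_genW]
  let B := MvPolynomial (Fin n) (ZMod p)
  have hst : St (k := ZMod p) (fun i : Fin n => (MvPolynomial.X i : B)) (fun _ => Ty.free) := by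
    refine ⟨fun _ => trivial, fun D _ _ y _ => ⟨MvPolynomial.aeval y, fun s => ?_⟩,
      fun D _ _ f g h => MvPolynomial.algHom_ext h⟩
    rw [MvPolynomial.aeval_X]
  have h1 := words hP (List.ofFn w).reverse (σ := Fin n) id id (fun i j h => h) (fun i j h => h)
    hst (fun i _ => ⟨by rintro b ⟨⟩, by rintro b ⟨⟩⟩)
  have h2 := good_eqn hP r w _ _ h1
  have hft : Algebra.FiniteType (ZMod p) (MvPolynomial (Fin r) B) :=
    Algebra.FiniteType.trans (S := B) inferInstance inferInstance
  refine iso_alg hP.toUni (Ideal.quotientEquivAlg _ _
    (MvPolynomial.commAlgEquiv (ZMod p) (Fin r) (Fin n)) ?_) h2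
  let e := MvPolynomial.commAlgEquiv (ZMod p) (Fin r) (Fin n)
  have he : ∀ q : MvPolynomial (Fin r) (ZMod p), e (MvPolynomial.map MvPolynomial.C q) =
      MvPolynomial.C q := by
    intro q
    have h3 : e.symm (MvPolynomial.C q) = MvPolynomial.map MvPolynomial.C q :=
      MvPolynomial.commAlgEquiv_C q
    rw [← h3, AlgEquiv.apply_symm_apply]
  have htr : trans B w = (trans (ZMod p) w).map (MvPolynomial.map (MvPolynomial.C)) := by
    have h3 : (trans (ZMod p) w).map (MvPolynomial.map (MvPolynomial.C)) =
      (MvPolynomial.map (MvPolynomial.C : ZMod p →+* B)).mapMatrix (trans (ZMod p) w) := rfl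
    rw [h3, trans, trans, map_list_prod, List.map_ofFn]
    congr 2
    funext i
    change _ = (Matrix.transvection _ _ (MvPolynomial.X i)).map _
    rw [map_transvection, MvPolynomial.map_X]
  have key : ∀ i, e (eqn w (fun i => (MvPolynomial.X (id i) : B))
      (fun i => MvPolynomial.X (id i) ^ p) i) =
      -(MvPolynomial.X i ^ p - ∑ j, MvPolynomial.C (trans (ZMod p) w i j) * MvPolynomial.X j) := by
    intro i
    unfold eqn
    rw [htr, neg_sub, map_sub]
    congr 1
    · simp only [Matrix.mulVec, dotProduct, Matrix.map_apply, map_sum, map_mul, he, id]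
      refine Finset.sum_congr rfl fun j _ => ?_
      congr 1
      exact MvPolynomial.commAlgEquiv_C_X j
    · simp only [map_pow, id]
      congr 1
      exact MvPolynomial.commAlgEquiv_C_X i
  rw [Ideal.map_span, ← Set.range_comp]
  apply le_antisymm
  · rw [Ideal.span_le]
    rintro _ ⟨i, rfl⟩
    have h3 := Ideal.subset_span (s := Set.range (fun i => e (eqn w
      (fun i => (MvPolynomial.X (id i) : B)) (fun i => MvPolynomial.X (id i) ^ p) i))) ⟨i, rfl⟩
    simp only at h3
    rw [key i] at h3
    exact (neg_mem_iff).1 h3
  · rw [Ideal.span_le]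
    rintro _ ⟨i, rfl⟩
    have h3 := Ideal.subset_span (s := Set.range (fun i => MvPolynomial.X i ^ p -
      ∑ j, MvPolynomial.C (trans (ZMod p) w i j) * MvPolynomial.X j)) ⟨i, rfl⟩
    have h4 := (neg_mem_iff).2 h3
    simp only at h4
    rw [← key i] at h4
    exact h4

end Pool.Agent.P8H90.FR
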