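import Pool.Agent.P8H48.FR.Stm2

/-!
# Words in independent variables: the recursion for the letters (helper90)
-/

set_option autoImplicit false
set_option linter.unusedSectionVars false

open CategoryTheory AlgebraicGeometry Pool.Agent.Y116.UV Pool.Agent.Z125.UN Polynomial

namespace Pool.Agent.P8H90.FR

variable {k : Type} [CommRing k] {sep : Prop} {P : Sch k → Prop}

/-- The property of the ring `A[y_1, ..., y_r] / (c' - t)`, where `c'` is obtained from the vector `c` by
applying the letters (the first letter of the list is applied first). -/
def Good (P : Sch k → Prop) {ι : Type} [DecidableEq ι] : List (ι × ι) →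
    ∀ (A : Type) [CommRing A] [Algebra k A], (ι → A) → (ι → A) → Prop
  | [], A, _, _, c, t => P (aff k (A ⧸ Ideal.span (Set.range fun i => c i - t i)))
  | l :: w, A, _, _, c, t => Good P w A[X]
      (Function.update (fun i => C (c i)) l.1 (C (c l.1) + X * C (c l.2))) (fun i => C (t i))

section

variable (hP : Bnd sep P)

include hP

theorem p_zero {A : Type} [CommRing A] [Algebra k A] (h : Subsingleton A) : P (aff k A) := by
  let B := MvPolynomial (Fin 0) k
  have h1 : P (aff k B) := hP.space 0
  have h2 : P (aff k (B ⧸ Ideal.span {(0 : B)})) := by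
    refine iso_alg hP.toUni ?_ h1
    have h3 : Ideal.span {(0 : B)} = ⊥ := Ideal.span_singleton_eq_bot.2 rfl
    rw [h3]
    exact (AlgEquiv.quotientBot k B).symm
  have h3 : P (aff k (Localization.Away (0 : B))) := ring_open hP 0 h2 h1
  have h4 : Subsingleton (Localization.Away (0 : B)) :=
    IsLocalization.subsingleton (M := Submonoid.powers (0 : B)) (Submonoid.mem_powers _)
  have h5 : Algebra.FiniteType k (Localization.Away (0 : B)) :=
    Algebra.FiniteType.trans (S := B) inferInstance inferInstance
  let e : Localization.Away (0 : B) ≃ₐ[k] A :=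
    { toFun := fun _ => 0
      invFun := fun _ => 0
      left_inv := fun _ => Subsingleton.elim _ _
      right_inv := fun _ => Subsingleton.elim _ _
      map_mul' := fun _ _ => Subsingleton.elim _ _
      map_add' := fun _ _ => Subsingleton.elim _ _
      commutes' := fun _ => Subsingleton.elim _ _ }
  exact iso_alg hP.toUni e h3

variable {ι : Type} [DecidableEq ι]

theorem good_iso (w : List (ι × ι)) : ∀ {A B : Type} [CommRing A] [CommRing B] [Algebra k A]
    [Algebra k B] [Algebra.FiniteType k A] (e : A ≃ₐ[k] B) (c t : ι → A), Good P w A c t →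
    Good P w B (fun i => e (c i)) (fun i => e (t i)) := by
  induction w with
  | nil =>
    intro A B _ _ _ _ _ e c t h
    refine iso_alg hP.toUni (Ideal.quotientEquivAlg _ _ e ?_) h
    rw [Ideal.map_span, ← Set.range_comp]
    congr 2
    funext i
    simp
  | cons l w ih =>
    intro A B _ _ _ _ _ e c t h
    have h1 := ih (Polynomial.mapAlgEquiv e) _ _ h
    have h2 : (fun i => Polynomial.mapAlgEquiv e
        (Function.update (fun i => C (c i)) l.1 (C (c l.1) + X * C (c l.2)) i)) =
        Function.update (fun i => C (e (c i))) l.1 (C (e (c l.1)) + X * C (e (c l.2))) := by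
      funext i
      by_cases hi : i = l.1
      · subst hi
        simp [Function.update_self]
      · simp [Function.update_of_ne hi]
    have h3 : (fun i => Polynomial.mapAlgEquiv e (C (t i))) = fun i => C (e (t i)) := by
      funext i
      simp
    rw [h2, h3] at h1
    exact h1

theorem good_zero (w : List (ι × ι)) : ∀ {A : Type} [CommRing A] [Algebra k A] (c t : ι → A),
    Subsingleton A → Good P w A c t := by
  induction w with
  | nil =>
    intro A _ _ c t h
    exact p_zero hP (Function.Surjective.subsingleton Ideal.Quotient.mk_surjective)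
  | cons l w ih =>
    intro A _ _ c t h
    exact ih _ _ inferInstance

theorem good_poly (w : List (ι × ι)) : ∀ {A : Type} [CommRing A] [Algebra k A]
    [Algebra.FiniteType k A] (c t : ι → A), Good P w A c t →
    Good P w A[X] (fun i => C (c i)) (fun i => C (t i)) := by
  induction w with
  | nil =>
    intro A _ _ _ c t h
    let I : Ideal A := Ideal.span (Set.range fun i => c i - t i)
    have h1 : P (aff k (MvPolynomial (Fin 1) (A ⧸ I))) := p_poly_fin hP 1 h
    have hft : Algebra.FiniteType k (MvPolynomial (Fin 1) (A ⧸ I)) :=
      Algebra.FiniteType.trans (S := A ⧸ I) inferInstance inferInstance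
    have h2 : P (aff k (A ⧸ I)[X]) :=
      iso_alg hP.toUni ((MvPolynomial.uniqueAlgEquiv (A ⧸ I) (Fin 1)).restrictScalars k) h1
    let e : (A ⧸ I)[X] ≃ₐ[k] A[X] ⧸ Ideal.map (C : A →+* A[X]) I :=
      AlgEquiv.ofRingEquiv (f := Ideal.polynomialQuotientEquivQuotientPolynomial I) (by
        intro r
        have h3 : (algebraMap k (A ⧸ I)[X] r) =
            Polynomial.map (Ideal.Quotient.mk I) (C (algebraMap k A r)) := by
          rw [Polynomial.map_C]
          rfl
        rw [h3, Ideal.polynomialQuotientEquivQuotientPolynomial_map_mk]
        rfl)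
    have h3 := iso_alg hP.toUni e h2
    have h4 : Ideal.map (C : A →+* A[X]) I =
        Ideal.span (Set.range fun i => C (c i) - C (t i)) := by
      rw [Ideal.map_span, ← Set.range_comp]
      congr 2
      funext i
      simp
    rw [h4] at h3
    exact h3
  | cons l w ih =>
    intro A _ _ _ c t h
    have h1 := ih _ _ h
    have h2 := good_iso hP w ((Polynomial.Bivariate.swap (R := A)).restrictScalars k) _ _ h1
    have h3 : (fun i => ((Polynomial.Bivariate.swap (R := A)).restrictScalars k)
        (C (Function.update (fun i => C (c i)) l.1 (C (c l.1) + X * C (c l.2)) i))) =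
        Function.update (fun i => C (C (c i))) l.1 (C (C (c l.1)) + X * C (C (c l.2))) := by
      funext i
      by_cases hi : i = l.1
      · subst hi
        simp [Function.update_self, Polynomial.Bivariate.swap_C]
      · simp [Function.update_of_ne hi, Polynomial.Bivariate.swap_C]
    have h4 : (fun i => ((Polynomial.Bivariate.swap (R := A)).restrictScalars k) (C (C (t i)))) =
        fun i => C (C (t i)) := by
      funext i
      simp [Polynomial.Bivariate.swap_C]
    rw [h3, h4] at h2
    exact h2

end

end Pool.Agent.P8H90.FR
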