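import Pool.Agent.P8H90.FR.Tot

/-!
# Words in independent variables: one letter, and the rings of states (helper90)
-/

set_option autoImplicit false
set_option linter.unusedSectionVars false

open CategoryTheory AlgebraicGeometry Pool.Agent.Y116.UV Pool.Agent.Z125.UN Polynomial

namespace Pool.Agent.P8H90.FR

section step

variable {k : Type} [CommRing k] {sep : Prop} {P : Sch k → Prop} (hP : Bnd sep P)

include hP

variable {ι : Type} [DecidableEq ι]

theorem step_zero {w : List (ι × ι)} {l : ι × ι} {A : Type} [CommRing A] [Algebra k A]
    [Algebra.FiniteType k A] {c t : ι → A} (h0 : c l.2 = 0) (h : Good P w A c t) :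
    Good P (l :: w) A c t := by
  have h1 := good_poly hP w _ _ h
  have h2 : Function.update (fun i => C (c i)) l.1 (C (c l.1) + X * C (c l.2)) =
      fun i => C (c i) := by
    rw [h0, map_zero, mul_zero, add_zero]
    exact Function.update_eq_self l.1 (fun i => C (c i))
  change Good P w A[X] _ _
  rw [h2]
  exact h1

theorem step_unit {w : List (ι × ι)} {l : ι × ι} {A : Type} [CommRing A] [Algebra k A]
    [Algebra.FiniteType k A] {c t : ι → A} (h0 : IsUnit (c l.2))
    (h : Good P w A[X] (Function.update (fun i => C (c i)) l.1 X) (fun i => C (t i))) :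
    Good P (l :: w) A c t := by
  let _ := h0.invertible
  let e := (Polynomial.algEquivCMulXAddC (c l.2) (c l.1)).restrictScalars k
  have h1 := good_iso hP w e _ _ h
  have h2 : (fun i => e (Function.update (fun i => C (c i)) l.1 X i)) =
      Function.update (fun i => C (c i)) l.1 (C (c l.1) + X * C (c l.2)) := by
    funext i
    by_cases hi : i = l.1
    · subst hi
      rw [Function.update_self, Function.update_self]
      simp [e, Polynomial.algEquivCMulXAddC_apply]
      ring
    · rw [Function.update_of_ne hi, Function.update_of_ne hi]
      simp [e, Polynomial.algEquivCMulXAddC_apply]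
  have h3 : (fun i => e (C (t i))) = fun i => C (t i) := by
    funext i
    simp [e, Polynomial.algEquivCMulXAddC_apply]
  rw [h2, h3] at h1
  exact h1

end step

/-- the type of a variable: free, a unit, or a constant -/
inductive Ty (k : Type) : Type
  | free : Ty k
  | unit : Ty k
  | con : k → Ty k

/-- `b` is of the given type -/
def Ok {k : Type} [CommRing k] {B : Type} [CommRing B] [Algebra k B] : Ty k → B → Prop
  | Ty.free, _ => True
  | Ty.unit, b => IsUnit b
  | Ty.con a, b => b = algebraMap k B a

theorem Ok.map {k : Type} [CommRing k] {B D : Type} [CommRing B] [Algebra k B] [CommRing D]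
    [Algebra k D] {T : Ty k} {b : B} (h : Ok T b) (f : B →ₐ[k] D) : Ok T (f b) := by
  cases T with
  | free => trivial
  | unit => exact IsUnit.map f h
  | con a =>
    change f b = _
    rw [show b = algebraMap k B a from h, AlgHom.commutes]

/-- `A` is the ring of functions on the space of the variables `x s` of types `T s` -/
structure St {k : Type} [CommRing k] {σ A : Type} [CommRing A] [Algebra k A] (x : σ → A)
    (T : σ → Ty k) : Prop where
  ok : ∀ s, Ok (T s) (x s)
  lift : ∀ (B : Type) [CommRing B] [Algebra k B] (y : σ → B), (∀ s, Ok (T s) (y s)) →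
    ∃ f : A →ₐ[k] B, ∀ s, f (x s) = y s
  ext : ∀ (B : Type) [CommRing B] [Algebra k B] (f g : A →ₐ[k] B), (∀ s, f (x s) = g (x s)) → f = g

section

variable {k : Type} [CommRing k] {σ A : Type} [CommRing A] [Algebra k A] {x : σ → A}
    {T : σ → Ty k}

theorem St.equiv (h : St x T) {B : Type} [CommRing B] [Algebra k B] {y : σ → B} (h' : St y T) :
    ∃ e : A ≃ₐ[k] B, ∀ s, e (x s) = y s := by
  obtain ⟨f, hf⟩ := h.lift B y h'.ok
  obtain ⟨g, hg⟩ := h'.lift A x h.ok
  refine ⟨AlgEquiv.ofAlgHom f g (h'.ext _ _ _ fun s => ?_) (h.ext _ _ _ fun s => ?_), fun s => hf s⟩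
  · rw [AlgHom.comp_apply, hg, hf]
    rfl
  · rw [AlgHom.comp_apply, hf, hg]
    rfl

/-- one more free variable -/
theorem St.poly (h : St x T) : St (fun o : Option σ => o.elim (X : A[X]) fun s => C (x s))
    (fun o : Option σ => o.elim Ty.free T) := by
  refine ⟨fun o => ?_, fun B _ _ y hy => ?_, fun B _ _ f g hfg => ?_⟩
  · cases o with
    | none => trivial
    | some s =>
      have h1 := (h.ok s).map (Polynomial.CAlgHom : A →ₐ[k] A[X])
      exact h1
  · obtain ⟨f, hf⟩ := h.lift B (fun s => y (some s)) fun s => hy (some s)
    refine ⟨Polynomial.eval₂AlgHom f (y none) (fun a => Commute.all _ _), fun o => ?_⟩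
    cases o with
    | none => simp
    | some s => simp [hf]
  · refine Polynomial.algHom_ext' ?_ (hfg none)
    refine h.ext _ _ _ fun s => ?_
    exact hfg (some s)

/-- a variable becomes constant -/
theorem St.quot [DecidableEq σ] (h : St x T) (s : σ) (a : k)
    (hs : ∀ (B : Type) [CommRing B] [Algebra k B], Ok (T s) (algebraMap k B a)) :
    St (fun r => Ideal.Quotient.mk (Ideal.span {x s - algebraMap k A a}) (x r))
      (Function.update T s (Ty.con a)) := by
  let I : Ideal A := Ideal.span {x s - algebraMap k A a}
  refine ⟨fun r => ?_, fun B _ _ y hy => ?_, fun B _ _ f g hfg => ?_⟩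
  · by_cases hr : r = s
    · subst hr
      rw [Function.update_self]
      change Ideal.Quotient.mk I (x r) = Ideal.Quotient.mk I (algebraMap k A a)
      rw [Ideal.Quotient.eq]
      exact Ideal.mem_span_singleton_self _
    · rw [Function.update_of_ne hr]
      exact (h.ok r).map (Ideal.Quotient.mkₐ k I)
  · have hys : y s = algebraMap k B a := by
      have := hy s
      rw [Function.update_self] at this
      exact this
    obtain ⟨f, hf⟩ := h.lift B y fun r => by
      by_cases hr : r = s
      · subst hr
        rw [hys]
        exact hs B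
      · have := hy r
        rw [Function.update_of_ne hr] at this
        exact this
    refine ⟨Ideal.Quotient.liftₐ I f ?_, fun r => ?_⟩
    · intro z hz
      have h1 : I ≤ RingHom.ker f := by
        rw [Ideal.span_le, Set.singleton_subset_iff]
        change f (x s - algebraMap k A a) = 0
        rw [map_sub, hf, hys, AlgHom.commutes, sub_self]
      exact h1 hz
    · exact hf r
  · apply Ideal.Quotient.algHom_ext
    exact h.ext _ _ _ hfg

/-- a variable becomes a unit -/
theorem St.loc [DecidableEq σ] (h : St x T) (s : σ) (hs : T s = Ty.free) {L : Type} [CommRing L]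
    [Algebra k L] {ψ : A →ₐ[k] L} (hψ : Loc (x s) ψ) :
    St (fun r => ψ (x r)) (Function.update T s Ty.unit) := by
  let _ : Algebra A L := ψ.toRingHom.toAlgebra
  have htow : IsScalarTower k A L := IsScalarTower.of_algebraMap_eq fun r => (ψ.commutes r).symm
  have hL : IsLocalization.Away (x s) L := hψ
  refine ⟨fun r => ?_, fun B _ _ y hy => ?_, fun B _ _ f g hfg => ?_⟩
  · by_cases hr : r = s
    · subst hr
      rw [Function.update_self]
      exact IsLocalization.Away.algebraMap_isUnit (S := L) (x r)
    · rw [Function.update_of_ne hr]
      exact (h.ok r).map ψ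
  · have hys : IsUnit (y s) := by
      have := hy s
      rw [Function.update_self] at this
      exact this
    obtain ⟨f, hf⟩ := h.lift B y fun r => by
      by_cases hr : r = s
      · subst hr
        rw [hs]
        trivial
      · have := hy r
        rw [Function.update_of_ne hr] at this
        exact this
    refine ⟨IsLocalization.liftAlgHom (M := Submonoid.powers (x s)) (f := f) ?_, fun r => ?_⟩
    · rintro ⟨_, n, rfl⟩
      rw [map_pow, hf]
      exact hys.pow n
    · rw [← hf r]
      exact IsLocalization.lift_eq _ (x r)
  · refine IsLocalization.algHom_ext (Submonoid.powers (x s)) ?_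
    exact h.ext _ _ _ hfg

/-- a variable is eliminated -/
theorem St.elim [DecidableEq σ] (h : St x T) (s u : σ) (hsu : u ≠ s) (p : ℕ) (a : k)
    (hT : ∀ (B : Type) [CommRing B] [Algebra k B] (b : B), Ok (T u) b → Ok (T s) (b ^ p)) :
    St (Function.update (fun r => Ideal.Quotient.mk (Ideal.span {x s - x u ^ p}) (x r)) s
      (algebraMap k _ a)) (Function.update T s (Ty.con a)) := by
  let I : Ideal A := Ideal.span {x s - x u ^ p}
  refine ⟨fun r => ?_, fun B _ _ y hy => ?_, fun B _ _ f g hfg => ?_⟩
  · by_cases hr : r = s
    · subst hr
      rw [Function.update_self, Function.update_self]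
      rfl
    · rw [Function.update_of_ne hr, Function.update_of_ne hr]
      exact (h.ok r).map (Ideal.Quotient.mkₐ k I)
  · have hys : y s = algebraMap k B a := by
      have := hy s
      rw [Function.update_self] at this
      exact this
    have hy' : ∀ r, r ≠ s → Ok (T r) (y r) := fun r hr => by
      have := hy r
      rw [Function.update_of_ne hr] at this
      exact this
    obtain ⟨f, hf⟩ := h.lift B (Function.update y s (y u ^ p)) fun r => by
      by_cases hr : r = s
      · subst hr
        rw [Function.update_self]
        exact hT B _ (hy' u hsu)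
      · rw [Function.update_of_ne hr]
        exact hy' r hr
    have hfs : f (x s) = y u ^ p := by rw [hf, Function.update_self]
    have hfr : ∀ r, r ≠ s → f (x r) = y r := fun r hr => by rw [hf, Function.update_of_ne hr]
    refine ⟨Ideal.Quotient.liftₐ I f ?_, fun r => ?_⟩
    · intro z hz
      have h1 : I ≤ RingHom.ker f := by
        rw [Ideal.span_le, Set.singleton_subset_iff]
        change f (x s - x u ^ p) = 0
        rw [map_sub, map_pow, hfs, hfr u hsu, sub_self]
      exact h1 hz
    · by_cases hr : r = s
      · subst hr
        rw [Function.update_self, hys, AlgHom.commutes]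
      · rw [Function.update_of_ne hr]
        exact hfr r hr
  · have hr : ∀ r, r ≠ s → f (Ideal.Quotient.mk I (x r)) = g (Ideal.Quotient.mk I (x r)) := by
      intro r hr
      have := hfg r
      rw [Function.update_of_ne hr] at this
      exact this
    have hs : f (Ideal.Quotient.mk I (x s)) = g (Ideal.Quotient.mk I (x s)) := by
      have h1 : Ideal.Quotient.mk I (x s) = Ideal.Quotient.mk I (x u) ^ p := by
        rw [← map_pow, Ideal.Quotient.eq]
        exact Ideal.mem_span_singleton_self _
      rw [h1, map_pow, map_pow, hr u hsu]
    apply Ideal.Quotient.algHom_ext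
    refine h.ext _ _ _ fun r => ?_
    by_cases hrs : r = s
    · subst hrs
      exact hs
    · exact hr r hrs

end

end Pool.Agent.P8H90.FR
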