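import Pool.Agent.P8H90.FR.Good

/-!
# Words in independent variables: splitting the base ring (helper90)
-/

set_option autoImplicit false
set_option linter.unusedSectionVars false

open CategoryTheory AlgebraicGeometry Pool.Agent.Y116.UV Pool.Agent.Z125.UN Polynomial

namespace Pool.Agent.P8H90.FR

variable {k : Type} [CommRing k] {sep : Prop} {P : Sch k → Prop}

/-- `ψ` is the localisation at `f`. -/
def Loc {A L : Type} [CommRing A] [CommRing L] [Algebra k A] [Algebra k L] (f : A) (ψ : A →ₐ[k] L) :
    Prop :=
  letI := ψ.toRingHom.toAlgebra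
  IsLocalization.Away f L

theorem Loc.poly {A L : Type} [CommRing A] [CommRing L] [Algebra k A] [Algebra k L] {f : A}
    {ψ : A →ₐ[k] L} (h : Loc f ψ) : Loc (C f : A[X]) (Polynomial.mapAlgHom ψ) := by
  let := ψ.toRingHom.toAlgebra
  have h1 : IsLocalization.Away f L := h
  let := Polynomial.algebra A L
  have h2 : IsLocalization ((Submonoid.powers f).map (C : A →+* A[X])) L[X] :=
    Polynomial.isLocalization (Submonoid.powers f) L
  rw [Submonoid.map_powers] at h2
  exact h2

section

variable (hP : Bnd sep P)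

include hP

/-- two quotients of the same ring by the same ideal -/
theorem of_ker {A B B' : Type} [CommRing A] [CommRing B] [CommRing B'] [Algebra k A] [Algebra k B]
    [Algebra k B'] [Algebra.FiniteType k B] (g : A →ₐ[k] B) (g' : A →ₐ[k] B')
    (hg : Function.Surjective g) (hg' : Function.Surjective g')
    (hk : RingHom.ker g = RingHom.ker g') (h : P (aff k B)) : P (aff k B') := by
  refine iso_alg hP.toUni ?_ h
  exact (Ideal.quotientKerAlgEquivOfSurjective hg).symm.trans
    ((Ideal.quotientEquivAlgOfEq k hk).trans (Ideal.quotientKerAlgEquivOfSurjective hg'))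

variable {ι : Type}

omit hP in
theorem span_map {A B : Type} [CommRing A] [CommRing B] [Algebra k A] [Algebra k B]
    (φ : A →ₐ[k] B) (c t : ι → A) :
    Ideal.map (φ : A →+* B) (Ideal.span (Set.range fun i => c i - t i)) =
      Ideal.span (Set.range fun i => φ (c i) - φ (t i)) := by
  rw [Ideal.map_span, ← Set.range_comp]
  congr 2
  funext i
  simp

/-- the closed part -/
theorem nil_closed {A B : Type} [CommRing A] [CommRing B] [Algebra k A] [Algebra k B]
    [Algebra.FiniteType k B] {f : A} {φ : A →ₐ[k] B}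
    (hφ : Function.Surjective φ) (hker : RingHom.ker φ = Ideal.span {f}) (I : Ideal A)
    (h : P (aff k (B ⧸ Ideal.map (φ : A →+* B) I))) :
    P (aff k ((A ⧸ I) ⧸ Ideal.span {Ideal.Quotient.mk I f})) := by
  let J := Ideal.map (φ : A →+* B) I
  let g : A →ₐ[k] B ⧸ J := (Ideal.Quotient.mkₐ k J).comp φ
  let K : Ideal (A ⧸ I) := Ideal.span {Ideal.Quotient.mk I f}
  let g' : A →ₐ[k] (A ⧸ I) ⧸ K := (Ideal.Quotient.mkₐ k K).comp (Ideal.Quotient.mkₐ k I)
  have hg : Function.Surjective g := (Ideal.Quotient.mkₐ_surjective k J).comp hφ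
  have hg' : Function.Surjective g' :=
    (Ideal.Quotient.mkₐ_surjective k K).comp (Ideal.Quotient.mkₐ_surjective k I)
  have h1 : RingHom.ker g = I ⊔ Ideal.span {f} := by
    have h2 : RingHom.ker g = Ideal.comap (φ : A →+* B) J := by
      ext x
      change Ideal.Quotient.mk J (φ x) = 0 ↔ _
      rw [Ideal.Quotient.eq_zero_iff_mem]
      rfl
    have h3 := Ideal.comap_map_of_surjective (φ : A →+* B) hφ I
    have h4 : Ideal.comap (φ : A →+* B) ⊥ = Ideal.span {f} := hker
    rw [h2, h3, h4]
  have h2 : RingHom.ker g' = I ⊔ Ideal.span {f} := by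
    have h2 : RingHom.ker g' = Ideal.comap (Ideal.Quotient.mk I) K := by
      ext x
      change Ideal.Quotient.mk K (Ideal.Quotient.mk I x) = 0 ↔ _
      rw [Ideal.Quotient.eq_zero_iff_mem]
      rfl
    have h5 : K = Ideal.map (Ideal.Quotient.mk I) (Ideal.span {f}) := by
      rw [Ideal.map_span, Set.image_singleton]
    have h3 := Ideal.comap_map_of_surjective (Ideal.Quotient.mk I) Ideal.Quotient.mk_surjective
      (Ideal.span {f})
    have h4 : Ideal.comap (Ideal.Quotient.mk I) ⊥ = I := Ideal.mk_ker
    rw [h2, h5, h3, h4, sup_comm]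
  exact of_ker hP g g' hg hg' (h1.trans h2.symm) h

/-- the open part -/
theorem nil_open {A L : Type} [CommRing A] [CommRing L] [Algebra k A] [Algebra k L]
    [Algebra.FiniteType k L] {f : A} {ψ : A →ₐ[k] L} (hψ : Loc f ψ) (I : Ideal A)
    (h : P (aff k (L ⧸ Ideal.map (ψ : A →+* L) I))) :
    P (aff k (Localization.Away (Ideal.Quotient.mk I f))) := by
  let _ : Algebra A L := ψ.toRingHom.toAlgebra
  have h1 : IsLocalization.Away f L := hψ
  let J : Ideal L := Ideal.map (ψ : A →+* L) I
  let θ : A ⧸ I →ₐ[k] L ⧸ J := Ideal.quotientMapₐ J ψ Ideal.le_comap_map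
  let _ : Algebra (A ⧸ I) (L ⧸ J) := θ.toRingHom.toAlgebra
  have htow : IsScalarTower k (A ⧸ I) (L ⧸ J) := IsScalarTower.of_algebraMap_eq fun r => by
    exact (θ.commutes r).symm
  have h2 : IsLocalization ((Submonoid.powers f).map (Ideal.Quotient.mk I)) (L ⧸ J) := by
    refine IsLocalization.of_surjective (Submonoid.powers f) L (Ideal.Quotient.mk I)
      Ideal.Quotient.mk_surjective (Ideal.Quotient.mk J) Ideal.Quotient.mk_surjective ?_ ?_
    · ext x
      rfl
    · rw [Ideal.mk_ker, Ideal.mk_ker]
      exact le_rfl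
  rw [Submonoid.map_powers] at h2
  exact iso_alg hP.toUni ((IsLocalization.algEquiv (Submonoid.powers (Ideal.Quotient.mk I f))
    (L ⧸ J) (Localization.Away (Ideal.Quotient.mk I f))).restrictScalars k) h

variable [DecidableEq ι]

theorem good_total (w : List (ι × ι)) : ∀ {A B L : Type} [CommRing A] [CommRing B] [CommRing L]
    [Algebra k A] [Algebra k B] [Algebra k L] [Algebra.FiniteType k A] [Algebra.FiniteType k B]
    [Algebra.FiniteType k L] (f : A) (φ : A →ₐ[k] B) (ψ : A →ₐ[k] L), Function.Surjective φ →
    RingHom.ker φ = Ideal.span {f} → Loc f ψ → ∀ c t : ι → A,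
    Good P w B (fun i => φ (c i)) (fun i => φ (t i)) →
    Good P w L (fun i => ψ (c i)) (fun i => ψ (t i)) → Good P w A c t := by
  induction w with
  | nil =>
    intro A B L _ _ _ _ _ _ _ _ _ f φ ψ hφ hker hψ c t h1 h2
    change P (aff k (A ⧸ Ideal.span (Set.range fun i => c i - t i)))
    refine ring_total hP (Ideal.Quotient.mk _ f) (nil_closed hP hφ hker _ ?_) (nil_open hP hψ _ ?_)
    · rw [span_map φ c t]
      exact h1
    · rw [span_map ψ c t]
      exact h2
  | cons l w ih =>
    intro A B L _ _ _ _ _ _ _ _ _ f φ ψ hφ hker hψ c t h1 h2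
    have key : ∀ {D : Type} [CommRing D] [Algebra k D] (χ : A →ₐ[k] D),
        Good P (l :: w) D (fun i => χ (c i)) (fun i => χ (t i)) →
        Good P w D[X] (fun i => Polynomial.mapAlgHom χ
          (Function.update (fun i => C (c i)) l.1 (C (c l.1) + X * C (c l.2)) i))
          (fun i => Polynomial.mapAlgHom χ (C (t i))) := by
      intro D _ _ χ h
      have h3 : (fun i => Polynomial.mapAlgHom χ
          (Function.update (fun i => C (c i)) l.1 (C (c l.1) + X * C (c l.2)) i)) =
          Function.update (fun i => C (χ (c i))) l.1 (C (χ (c l.1)) + X * C (χ (c l.2))) := by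
        funext i
        by_cases hi : i = l.1
        · subst hi
          simp [Function.update_self]
        · simp [Function.update_of_ne hi]
      have h4 : (fun i => Polynomial.mapAlgHom χ (C (t i))) = fun i => C (χ (t i)) := by
        funext i
        simp
      rw [h3, h4]
      exact h
    have hs : Function.Surjective (Polynomial.mapAlgHom φ) := by
      rw [Polynomial.coe_mapAlgHom]
      exact Polynomial.map_surjective _ hφ
    have hk : RingHom.ker (Polynomial.mapAlgHom φ) = Ideal.span {(C f : A[X])} := by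
      have h3 := Polynomial.ker_mapRingHom (φ : A →+* B)
      have h4 : RingHom.ker (φ : A →+* B) = Ideal.span {f} := hker
      rw [h4, Ideal.map_span, Set.image_singleton] at h3
      exact h3
    exact ih (C f) (Polynomial.mapAlgHom φ) (Polynomial.mapAlgHom ψ) hs hk hψ.poly _ _ (key φ h1)
      (key ψ h2)

end

end Pool.Agent.P8H90.FR
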