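import Pool.Agent.P8H90.FR.Eqs

/-!
# Words in independent variables: induction over the equations and the letters (helper90)
-/

set_option autoImplicit false
set_option linter.unusedSectionVars false

open CategoryTheory AlgebraicGeometry Pool.Agent.Y116.UV Pool.Agent.Z125.UN Polynomial

namespace Pool.Agent.P8H90.FR

/-- the right hand sides: `x (a i) ^ p` for `i ∈ I`, no condition for the other `i` -/
noncomputable def tgt (p : ℕ) {σ ι A : Type} [CommRing A] (x : σ → A) (c a : ι → σ)
    (I : Finset ι) (i : ι) : A := by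
  classical
  exact if i ∈ I then x (a i) ^ p else x (c i)

theorem tgt_mem {p : ℕ} {σ ι A : Type} [CommRing A] {x : σ → A} {c a : ι → σ}
    {I : Finset ι} {i : ι} (h : i ∈ I) : tgt p x c a I i = x (a i) ^ p := by
  classical
  rw [tgt, if_pos h]

theorem tgt_not {p : ℕ} {σ ι A : Type} [CommRing A] {x : σ → A} {c a : ι → σ}
    {I : Finset ι} {i : ι} (h : i ∉ I) : tgt p x c a I i = x (c i) := by
  classical
  rw [tgt, if_neg h]

/-- not a constant different from `0` -/
def Nc {k : Type} [CommRing k] (T : Ty k) : Prop := ∀ b, T = Ty.con b → b = 0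

/-- the condition on the types of the variables -/
def Cond {k : Type} [CommRing k] {σ ι : Type} (c a : ι → σ) (I : Finset ι) (T : σ → Ty k) : Prop :=
  ∀ i ∈ I, Nc (T (c i)) ∧ Nc (T (a i))

/-- the statement for the equations with the indices in `I` -/
def Hyp (p : ℕ) {k : Type} [CommRing k] (P : Sch k → Prop) {σ ι : Type} [DecidableEq ι]
    (c a : ι → σ) (I : Finset ι) : Prop :=
  ∀ (A : Type) [CommRing A] [Algebra k A] [Algebra.FiniteType k A] (x : σ → A) (T : σ → Ty k),
    St x T → Cond c a I T → Good P [] A (fun i => x (c i)) (tgt p x c a I)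

section

variable {p : ℕ} [hp : Fact p.Prime] {sep : Prop} {P : Sch (ZMod p) → Prop} (hP : Bnd sep P)
  {σ ι : Type} [Finite σ] [DecidableEq σ] [DecidableEq ι]

theorem nil_congr {A : Type} [CommRing A] [Algebra (ZMod p) A] {c t c' t' : ι → A}
    (h1 : c = c') (h2 : t = t') (h : Good P [] A c t) : Good P [] A c' t' := by
  subst h1
  subst h2
  exact h

include hP

/-- a quotient by an ideal which contains a unit -/
theorem nil_unit {A : Type} [CommRing A] [Algebra (ZMod p) A] {c t : ι → A} (i : ι)
    (h : IsUnit (c i - t i)) : Good P [] A c t := by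
  refine p_zero hP ?_
  rw [Ideal.Quotient.subsingleton_iff]
  exact Ideal.eq_top_of_isUnit_mem _ (Ideal.subset_span ⟨i, rfl⟩) h

theorem hyp_empty (c a : ι → σ) : Hyp p P c a ∅ := by
  intro A _ _ _ x T h _
  change P (aff (ZMod p) (A ⧸ Ideal.span _))
  have h1 : Ideal.span (Set.range fun i => x (c i) - tgt p x c a ∅ i) = ⊥ := by
    rw [Ideal.span_eq_bot]
    rintro _ ⟨i, rfl⟩
    simp only
    rw [tgt_not (Finset.notMem_empty i), sub_self]
  rw [h1]
  exact iso_alg hP.toUni (AlgEquiv.quotientBot (ZMod p) A).symm (h.prop hP)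

variable {c a : ι → σ} {I : Finset ι} {i₀ : ι}

/-- one relation less, by elimination of the variable -/
theorem hyp_elim (hc : ∀ i j, c i = c j → i = j) (hca : ∀ i j, c i = a j → i = j) (hi : i₀ ∉ I)
    (H : Hyp p P c a I) {A : Type} [CommRing A] [Algebra (ZMod p) A] [Algebra.FiniteType (ZMod p) A]
    {x : σ → A} {T : σ → Ty (ZMod p)} (h : St x T) (hT : Cond c a (insert i₀ I) T)
    (hne : a i₀ ≠ c i₀) (b : ZMod p)
    (hb : ∀ (B : Type) [CommRing B] [Algebra (ZMod p) B] (r : B), Ok (T (a i₀)) r →
      Ok (T (c i₀)) (r ^ p)) :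
    Good P [] A (fun i => x (c i)) (tgt p x c a (insert i₀ I)) := by
  have h1 := h.elim (c i₀) (a i₀) hne p b hb
  have hT' : Cond c a I (Function.update T (c i₀) (Ty.con b)) := by
    intro i hiI
    have hii : i ≠ i₀ := fun h => hi (h ▸ hiI)
    rw [Function.update_of_ne fun h => hii (hc _ _ h),
      Function.update_of_ne fun h => hii (hca _ _ h.symm).symm]
    exact hT i (Finset.mem_insert_of_mem hiI)
  have h2 := H _ _ _ h1 hT'
  refine nil_quot hP (r := x (c i₀) - x (a i₀) ^ p) (Ideal.subset_span ⟨i₀, ?_⟩) (fun i => ?_) h2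
  · simp only
    rw [tgt_mem (Finset.mem_insert_self _ _)]
  · by_cases hii : i = i₀
    · subst hii
      rw [tgt_not hi, tgt_mem (Finset.mem_insert_self _ _), sub_self]
      exact (Ideal.Quotient.eq_zero_iff_mem.2 (Ideal.mem_span_singleton_self _)).symm
    · have hci : c i ≠ c i₀ := fun h => hii (hc _ _ h)
      by_cases hiI : i ∈ I
      · have hai : a i ≠ c i₀ := fun h => hii (hca _ _ h.symm).symm
        rw [tgt_mem hiI, tgt_mem (Finset.mem_insert_of_mem hiI), Function.update_of_ne hci,
          Function.update_of_ne hai, map_sub, map_pow]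
      · rw [tgt_not hiI, tgt_not (fun h => (Finset.mem_insert.1 h).elim hii hiI),
          Function.update_of_ne hci, sub_self, sub_self, map_zero]

/-- the relation is trivial -/
theorem hyp_triv (hi : i₀ ∉ I)
    (H : Hyp p P c a I) {A : Type} [CommRing A] [Algebra (ZMod p) A] [Algebra.FiniteType (ZMod p) A]
    {x : σ → A} {T : σ → Ty (ZMod p)} (h : St x T) (hT : Cond c a (insert i₀ I) T)
    (h0 : x (c i₀) = x (a i₀) ^ p) :
    Good P [] A (fun i => x (c i)) (tgt p x c a (insert i₀ I)) := by
  refine nil_congr rfl ?_ (H A x T h fun i hiI => hT i (Finset.mem_insert_of_mem hiI))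
  funext i
  by_cases hii : i = i₀
  · subst hii
    rw [tgt_not hi, tgt_mem (Finset.mem_insert_self _ _), h0]
  · by_cases hiI : i ∈ I
    · rw [tgt_mem hiI, tgt_mem (Finset.mem_insert_of_mem hiI)]
    · rw [tgt_not hiI, tgt_not (fun h => (Finset.mem_insert.1 h).elim hii hiI)]

omit hP [Finite σ] in
theorem x_zero {A : Type} [CommRing A] [Algebra (ZMod p) A]
    {x : σ → A} {T : σ → Ty (ZMod p)} (h : St x T) {s : σ} (hs : Nc (T s)) {b : ZMod p}
    (hb : T s = Ty.con b) : x s = 0 := by
  have h1 := h.ok s
  rw [hb, hs b hb] at h1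
  have h2 : x s = algebraMap (ZMod p) A 0 := h1
  rw [h2, map_zero]

omit hP [Finite σ] in
theorem x_unit {A : Type} [CommRing A] [Algebra (ZMod p) A]
    {x : σ → A} {T : σ → Ty (ZMod p)} (h : St x T) {s : σ}
    (hb : T s = Ty.unit) : IsUnit (x s) := by
  have h1 := h.ok s
  rw [hb] at h1
  exact h1

/-- the two variables are different, and not free -/
theorem hyp_ne (hc : ∀ i j, c i = c j → i = j) (hca : ∀ i j, c i = a j → i = j) (hi : i₀ ∉ I)
    (H : Hyp p P c a I) {A : Type} [CommRing A] [Algebra (ZMod p) A] [Algebra.FiniteType (ZMod p) A]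
    {x : σ → A} {T : σ → Ty (ZMod p)} (h : St x T) (hT : Cond c a (insert i₀ I) T)
    (hne : a i₀ ≠ c i₀) (hf : T (a i₀) ≠ Ty.free) :
    Good P [] A (fun i => x (c i)) (tgt p x c a (insert i₀ I)) := by
  have hp0 : p ≠ 0 := hp.out.ne_zero
  obtain ⟨hn1, hn2⟩ := hT i₀ (Finset.mem_insert_self _ _)
  rcases hs : T (c i₀) with _ | _ | b
  · refine hyp_elim hP hc hca hi H h hT hne 0 fun B _ _ r _ => ?_
    rw [hs]
    trivial
  · rcases hu : T (a i₀) with _ | _ | b
    · exact absurd hu hf
    · refine hyp_elim hP hc hca hi H h hT hne 1 fun B _ _ r hr => ?_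
      rw [hs]
      rw [hu] at hr
      exact IsUnit.pow p hr
    · refine nil_unit hP i₀ ?_
      rw [tgt_mem (Finset.mem_insert_self _ _), x_zero h hn2 hu, zero_pow hp0, sub_zero]
      exact x_unit h hs
  · rcases hu : T (a i₀) with _ | _ | b'
    · exact absurd hu hf
    · refine nil_unit hP i₀ ?_
      rw [tgt_mem (Finset.mem_insert_self _ _), x_zero h hn1 hs, zero_sub]
      exact ((x_unit h hu).pow p).neg
    · refine hyp_triv hP hi H h hT ?_
      rw [x_zero h hn1 hs, x_zero h hn2 hu, zero_pow hp0]

omit hP [Finite σ] [DecidableEq ι] in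
theorem tgt_map {A B : Type} [CommRing A] [CommRing B] [Algebra (ZMod p) A] [Algebra (ZMod p) B]
    (φ : A →ₐ[ZMod p] B) (x : σ → A) (I : Finset ι) :
    (fun i => φ (tgt p x c a I i)) = tgt p (fun s => φ (x s)) c a I := by
  funext i
  by_cases hiI : i ∈ I
  · rw [tgt_mem hiI, tgt_mem hiI, map_pow]
  · rw [tgt_not hiI, tgt_not hiI]

/-- splitting a free variable -/
theorem st_total {w : List (ι × ι)} {A : Type} [CommRing A] [Algebra (ZMod p) A]
    [Algebra.FiniteType (ZMod p) A] {x : σ → A} {T : σ → Ty (ZMod p)} (h : St x T) (s : σ)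
    (hs : T s = Ty.free) (F G : ∀ (B : Type) [CommRing B] (_ : σ → B), ι → B)
    (hF : ∀ {B D : Type} [CommRing B] [CommRing D] [Algebra (ZMod p) B] [Algebra (ZMod p) D]
      (φ : B →ₐ[ZMod p] D) (y : σ → B), (fun i => φ (F B y i)) = F D (fun r => φ (y r)))
    (hG : ∀ {B D : Type} [CommRing B] [CommRing D] [Algebra (ZMod p) B] [Algebra (ZMod p) D]
      (φ : B →ₐ[ZMod p] D) (y : σ → B), (fun i => φ (G B y i)) = G D (fun r => φ (y r)))
    (H : ∀ (B : Type) [CommRing B] [Algebra (ZMod p) B] [Algebra.FiniteType (ZMod p) B]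
      (y : σ → B) (T' : Ty (ZMod p)), (T' = Ty.con 0 ∨ T' = Ty.unit) →
      St y (Function.update T s T') → Good P w B (F B y) (G B y)) :
    Good P w A (F A x) (G A x) := by
  have h1 := h.quot s 0 fun B _ _ => by rw [hs]; trivial
  let I : Ideal A := Ideal.span {x s - algebraMap (ZMod p) A 0}
  have hI : I = Ideal.span {x s} := by
    simp only [I, map_zero, sub_zero]
  have hft : Algebra.FiniteType (ZMod p) (Localization.Away (x s)) :=
    Algebra.FiniteType.trans (S := A) inferInstance inferInstance
  refine good_total hP w (x s) (Ideal.Quotient.mkₐ (ZMod p) I)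
    (IsScalarTower.toAlgHom (ZMod p) A (Localization.Away (x s)))
    (Ideal.Quotient.mkₐ_surjective (ZMod p) I) ?_ (loc_away _) _ _ ?_ ?_
  · rw [← hI]
    exact Ideal.Quotient.mkₐ_ker (ZMod p) I
  · rw [hF (Ideal.Quotient.mkₐ (ZMod p) I) x, hG (Ideal.Quotient.mkₐ (ZMod p) I) x]
    exact H _ _ _ (Or.inl rfl) h1
  · rw [hF (IsScalarTower.toAlgHom (ZMod p) A (Localization.Away (x s))) x,
      hG (IsScalarTower.toAlgHom (ZMod p) A (Localization.Away (x s))) x]
    exact H _ _ _ (Or.inr rfl) (h.loc s hs (loc_away _))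

/-- a relation `x = x ^ p` -/
theorem hyp_diag (hc : ∀ i j, c i = c j → i = j) (hca : ∀ i j, c i = a j → i = j) (hi : i₀ ∉ I)
    (H : Hyp p P c a I) {A : Type} [CommRing A] [Algebra (ZMod p) A] [Algebra.FiniteType (ZMod p) A]
    {x : σ → A} {T : σ → Ty (ZMod p)} (h : St x T) (hT : Cond c a (insert i₀ I) T)
    (hne : a i₀ = c i₀) :
    Good P [] A (fun i => x (c i)) (tgt p x c a (insert i₀ I)) := by
  have hp0 : p ≠ 0 := hp.out.ne_zero
  obtain ⟨hn1, hn2⟩ := hT i₀ (Finset.mem_insert_self _ _)
  by_cases hcon : ∃ b, T (c i₀) = Ty.con b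
  · obtain ⟨b, hs⟩ := hcon
    refine hyp_triv hP hi H h hT ?_
    rw [hne, x_zero h hn1 hs, zero_pow hp0]
  · let J : Ideal A := Ideal.span (Set.range fun i => x (c i) - tgt p x c a (insert i₀ I) i)
    change P (aff (ZMod p) (A ⧸ J))
    refine split_values hP Finset.univ (Ideal.Quotient.mk J (x (c i₀))) ?_ fun b _ => ?_
    · have h1 : ∏ b : ZMod p, ((X : (ZMod p)[X]) - C b) = X ^ p - X := by
        have h2 := FiniteField.roots_X_pow_card_sub_X (ZMod p)
        rw [ZMod.card] at h2
        have h4 := FiniteField.X_pow_card_sub_X_natDegree_eq (ZMod p) hp.out.one_lt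
        have h5 := Polynomial.prod_multiset_X_sub_C_of_monic_of_roots_card_eq
          (p := (X ^ p - X : (ZMod p)[X])) (by
            refine Polynomial.monic_X_pow_sub ?_
            rw [Polynomial.degree_X]
            exact_mod_cast hp.out.one_lt) (by
            rw [h2, h4]
            simp)
        rw [h2] at h5
        exact h5
      have h2 := congrArg (Polynomial.aeval (Ideal.Quotient.mk J (x (c i₀)))) h1
      simp only [map_prod, map_sub, Polynomial.aeval_X, Polynomial.aeval_C, map_pow] at h2
      rw [h2, ← map_pow, ← map_sub, Ideal.Quotient.eq_zero_iff_mem, ← neg_mem_iff, neg_sub]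
      refine Ideal.subset_span ⟨i₀, ?_⟩
      simp only
      rw [tgt_mem (Finset.mem_insert_self _ _), hne]
    · let K : Ideal A := Ideal.span {x (c i₀) - algebraMap (ZMod p) A b}
      have h3 : Ideal.Quotient.mk J (x (c i₀)) - algebraMap (ZMod p) (A ⧸ J) b =
          Ideal.Quotient.mk J (x (c i₀) - algebraMap (ZMod p) A b) := by
        rw [map_sub]
        rfl
      rw [h3]
      refine nil_closed hP (φ := Ideal.Quotient.mkₐ (ZMod p) K) (Ideal.Quotient.mkₐ_surjective (ZMod p) K)
        (Ideal.Quotient.mkₐ_ker (ZMod p) K) J ?_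
      rw [span_map (Ideal.Quotient.mkₐ (ZMod p) K) (fun i => x (c i))
        (tgt p x c a (insert i₀ I))]
      have hgoal : Good P [] (A ⧸ K) (fun i => Ideal.Quotient.mkₐ (ZMod p) K (x (c i)))
          (fun i => Ideal.Quotient.mkₐ (ZMod p) K (tgt p x c a (insert i₀ I) i)) := by
        by_cases hb : T (c i₀) = Ty.unit ∧ b = 0
        · refine good_zero hP [] _ _ ?_
          rw [Ideal.Quotient.subsingleton_iff]
          refine Ideal.eq_top_of_isUnit_mem _ (Ideal.mem_span_singleton_self _) ?_
          rw [hb.2, map_zero, sub_zero]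
          exact x_unit h hb.1
        · have hs : ∀ (B : Type) [CommRing B] [Algebra (ZMod p) B],
              Ok (T (c i₀)) (algebraMap (ZMod p) B b) := by
            intro B _ _
            rcases hs : T (c i₀) with _ | _ | b'
            · trivial
            · exact (isUnit_iff_ne_zero.2 fun h => hb ⟨hs, h⟩).map _
            · exact absurd ⟨b', hs⟩ hcon
          have h4 := h.quot (c i₀) b hs
          have hT' : Cond c a I (Function.update T (c i₀) (Ty.con b)) := by
            intro i hiI
            have hii : i ≠ i₀ := fun h => hi (h ▸ hiI)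
            rw [Function.update_of_ne fun h => hii (hc _ _ h),
              Function.update_of_ne fun h => hii (hca _ _ h.symm).symm]
            exact hT i (Finset.mem_insert_of_mem hiI)
          have h5 := H _ _ _ h4 hT'
          refine nil_congr rfl ?_ h5
          rw [tgt_map]
          funext i
          by_cases hii : i = i₀
          · subst hii
            rw [tgt_not hi, tgt_mem (Finset.mem_insert_self _ _), hne]
            have h6 : Ideal.Quotient.mk K (x (c i)) = algebraMap (ZMod p) (A ⧸ K) b := by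
              change _ = Ideal.Quotient.mk K (algebraMap (ZMod p) A b)
              rw [Ideal.Quotient.eq]
              exact Ideal.mem_span_singleton_self _
            change Ideal.Quotient.mk K (x (c i)) = Ideal.Quotient.mk K (x (c i)) ^ p
            rw [h6, ← map_pow, ZMod.pow_card]
          · by_cases hiI : i ∈ I
            · rw [tgt_mem hiI, tgt_mem (Finset.mem_insert_of_mem hiI)]
              rfl
            · rw [tgt_not hiI, tgt_not (fun h => (Finset.mem_insert.1 h).elim hii hiI)]
              rfl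
      exact hgoal

theorem hyp_all (hc : ∀ i j, c i = c j → i = j) (hca : ∀ i j, c i = a j → i = j)
    (I : Finset ι) : Hyp p P c a I := by
  induction I using Finset.induction_on with
  | empty => exact hyp_empty hP c a
  | insert i₀ I hi H =>
    intro A _ _ _ x T h hT
    by_cases hne : a i₀ = c i₀
    · exact hyp_diag hP hc hca hi H h hT hne
    · by_cases hf : T (a i₀) = Ty.free
      · refine st_total hP h (a i₀) hf (fun B _ y i => y (c i))
          (fun B _ y => tgt p y c a (insert i₀ I)) (fun φ y => rfl)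
          (fun φ y => tgt_map φ y _) fun B _ _ _ y T' hT' hy => ?_
        have hnc : Nc T' := by
          rcases hT' with rfl | rfl
          · rintro b ⟨⟩
            rfl
          · rintro b ⟨⟩
        refine hyp_ne hP hc hca hi H hy (fun i hiI => ?_) hne ?_
        · obtain ⟨h1, h2⟩ := hT i hiI
          refine ⟨?_, ?_⟩
          · by_cases h3 : c i = a i₀
            · rw [h3, Function.update_self]
              exact hnc
            · rw [Function.update_of_ne h3]
              exact h1
          · by_cases h3 : a i = a i₀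
            · rw [h3, Function.update_self]
              exact hnc
            · rw [Function.update_of_ne h3]
              exact h2
        · rw [Function.update_self]
          rcases hT' with rfl | rfl <;> simp
      · exact hyp_ne hP hc hca hi H h hT hne hf

end

end Pool.Agent.P8H90.FR
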